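import Mathlib

/-!
MP_908db9_lc: a countable invariant base with open stabilisers, for actions of non-archimedean
groups; `G_δ` subsets of Polish spaces are Polish.
-/

open Topology Filter Set TopologicalSpace Pointwise

namespace Pool.Agent.W_908db9_h43

/-- A `G_δ` subset of a Polish space is Polish. -/
lemma polishSpace_of_isGδ {Y : Type*} [TopologicalSpace Y] [PolishSpace Y] {R : Set Y}
    (hR : IsGδ R) : PolishSpace R := by
  obtain ⟨V, hVo, hV⟩ := isGδ_iff_eq_iInter_nat.1 hR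
  have hp : ∀ n, PolishSpace (V n) := fun n => (hVo n).polishSpace
  have hmem0 : ∀ y ∈ R, ∀ n : ℕ, y ∈ V n := fun y hy n => by
    rw [hV] at hy
    exact mem_iInter.1 hy n
  have hmem : ∀ (y : R) (n : ℕ), (y : Y) ∈ V n := fun y n => hmem0 y y.2 n
  let φ : R → (∀ n, V n) := fun y n => ⟨y, hmem y n⟩
  have hc : Continuous φ := continuous_pi fun n => continuous_subtype_val.subtype_mk _
  have hind : IsInducing φ := by
    have h1 : IsInducing ((fun f : ∀ n, V n => ((f 0 : V 0) : Y)) ∘ φ) := by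
      show IsInducing (fun y : R => (y : Y))
      exact IsInducing.subtypeVal
    exact IsInducing.of_comp hc (continuous_subtype_val.comp (continuous_apply 0)) h1
  have hinj : Function.Injective φ := by
    intro y y' h
    have h0 := congrFun h 0
    have h1 : ((φ y 0 : V 0) : Y) = ((φ y' 0 : V 0) : Y) := congrArg Subtype.val h0
    exact Subtype.ext h1
  have hcl : IsClosed (range φ) := by
    have h1 : range φ = ⋂ n, {f : ∀ n, V n | ((f n : V n) : Y) = ((f 0 : V 0) : Y)} := by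
      ext f
      constructor
      · rintro ⟨y, rfl⟩
        exact mem_iInter.2 fun n => rfl
      · intro hf
        have hf' : ∀ n, ((f n : V n) : Y) = ((f 0 : V 0) : Y) := fun n => mem_iInter.1 hf n
        have hR' : ((f 0 : V 0) : Y) ∈ R := by
          rw [hV]
          exact mem_iInter.2 fun n => by rw [← hf' n]; exact (f n).2
        refine ⟨⟨((f 0 : V 0) : Y), hR'⟩, ?_⟩
        funext n
        exact Subtype.ext (hf' n).symm
    rw [h1]
    exact isClosed_iInter fun n => isClosed_eq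
      (continuous_subtype_val.comp (continuous_apply n))
      (continuous_subtype_val.comp (continuous_apply 0))
  exact (IsClosedEmbedding.mk ⟨hind, hinj⟩ hcl).polishSpace

section

variable {G A : Type} [TopologicalSpace G] [Group G] [IsTopologicalGroup G]
  [TopologicalSpace A] [MulAction G A] [ContinuousSMul G A]

/-- A countable invariant base with open stabilisers. -/
structure IsBase (G : Type) {A : Type} [TopologicalSpace G] [Group G] [TopologicalSpace A]
    [MulAction G A] (ℬ : Set (Set A)) : Prop where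
  count : ℬ.Countable
  isOpen : ∀ O ∈ ℬ, IsOpen O
  base : ∀ a : A, ∀ W, IsOpen W → a ∈ W → ∃ O ∈ ℬ, a ∈ O ∧ O ⊆ W
  inv : ∀ O ∈ ℬ, ∀ g : G, g • O ∈ ℬ
  stab : ∀ O ∈ ℬ, {g : G | g • O = O} ∈ 𝓝 (1 : G)

omit [IsTopologicalGroup G] in
lemma exists_small (hna : ∀ V ∈ 𝓝 (1 : G), ∃ H : OpenSubgroup G, (H : Set G) ⊆ V)
    (a : A) (W : Set A) (hW : IsOpen W) (ha : a ∈ W) :
    ∃ O : Set A, IsOpen O ∧ a ∈ O ∧ O ⊆ W ∧ {g : G | g • O = O} ∈ 𝓝 (1 : G) := by
  have h1 : (fun p : G × A => p.1 • p.2) ⁻¹' W ∈ 𝓝 ((1 : G), a) :=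
    (continuous_smul.continuousAt (x := ((1 : G), a))).preimage_mem_nhds
      (hW.mem_nhds (by simpa using ha))
  rw [nhds_prod_eq, mem_prod_iff] at h1
  obtain ⟨U, hU, T, hT, hUT⟩ := h1
  obtain ⟨H, hH⟩ := hna U hU
  obtain ⟨T', hT'T, hT'o, haT'⟩ := mem_nhds_iff.1 hT
  refine ⟨⋃ h : H, (h : G) • T', isOpen_iUnion fun h => hT'o.smul _, ?_, ?_, ?_⟩
  · exact mem_iUnion.2 ⟨1, by simpa using haT'⟩
  · refine iUnion_subset fun h => ?_
    rintro _ ⟨x, hx, rfl⟩
    exact hUT (show ((h : G), x) ∈ U ×ˢ T from ⟨hH h.2, hT'T hx⟩)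
  · refine mem_of_superset H.mem_nhds_one fun g hg => ?_
    have hsub : ∀ g : G, g ∈ H → g • (⋃ h : H, (h : G) • T') ⊆ ⋃ h : H, (h : G) • T' := by
      intro g hg
      rintro _ ⟨x, hx, rfl⟩
      obtain ⟨h, hh⟩ := mem_iUnion.1 hx
      obtain ⟨y, hy, rfl⟩ := hh
      refine mem_iUnion.2 ⟨⟨g * h, mul_mem hg h.2⟩, y, hy, ?_⟩
      exact mul_smul g (h : G) y
    refine Subset.antisymm (hsub g hg) ?_
    have h2 := hsub g⁻¹ (inv_mem hg)
    have h3 := smul_set_mono (a := g) h2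
    rwa [smul_inv_smul] at h3

lemma exists_isBase [SeparableSpace G] [SecondCountableTopology A]
    (hna : ∀ V ∈ 𝓝 (1 : G), ∃ H : OpenSubgroup G, (H : Set G) ⊆ V) :
    ∃ ℬ : Set (Set A), IsBase G ℬ := by
  classical
  let b := countableBasis A
  have hbc : b.Countable := countable_countableBasis A
  have hb : IsTopologicalBasis b := isBasis_countableBasis A
  let Q : Set A × Set A → Set A → Prop := fun p W =>
    IsOpen W ∧ p.1 ⊆ W ∧ W ⊆ p.2 ∧ {g : G | g • W = W} ∈ 𝓝 (1 : G)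
  let I : Set (Set A × Set A) := {p | p ∈ b ×ˢ b ∧ ∃ W, Q p W}
  have hIc : I.Countable := (hbc.prod hbc).mono fun p hp => hp.1
  let w : Set A × Set A → Set A := fun p => if h : ∃ W, Q p W then h.choose else ∅
  have hw : ∀ p ∈ I, Q p (w p) := by
    intro p hp
    have h : ∃ W, Q p W := hp.2
    show Q p (if h : ∃ W, Q p W then h.choose else ∅)
    rw [dif_pos h]
    exact h.choose_spec
  obtain ⟨D, hDc, hDd⟩ := exists_countable_dense G
  refine ⟨{O | ∃ g : G, ∃ p ∈ I, O = g • w p}, ?_, ?_, ?_, ?_, ?_⟩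
  · have h1 : {O | ∃ g : G, ∃ p ∈ I, O = g • w p} ⊆
        (fun q : G × (Set A × Set A) => q.1 • w q.2) '' (D ×ˢ I) := by
      rintro _ ⟨g, p, hp, rfl⟩
      have h2 := (hw p hp).2.2.2
      obtain ⟨S, hS, hSo, h1S⟩ := mem_nhds_iff.1 h2
      have hop : IsOpen ((fun x => g⁻¹ * x) ⁻¹' S) := hSo.preimage (continuous_const_mul g⁻¹)
      obtain ⟨d, hd, hdg⟩ := hDd.exists_mem_open hop ⟨g, by
        show g⁻¹ * g ∈ S
        rw [inv_mul_cancel]; exact h1S⟩
      refine ⟨(d, p), ⟨hd, hp⟩, ?_⟩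
      show d • w p = g • w p
      have h3 : (g⁻¹ * d) • w p = w p := hS hdg
      calc d • w p = g • (g⁻¹ * d) • w p := by rw [← mul_smul, mul_inv_cancel_left]
        _ = g • w p := by rw [h3]
    exact ((hDc.prod hIc).image _).mono h1
  · rintro _ ⟨g, p, hp, rfl⟩
    exact (hw p hp).1.smul g
  · intro a W hW ha
    obtain ⟨B₂, hB₂, haB₂, hB₂W⟩ := hb.exists_subset_of_mem_open ha hW
    obtain ⟨O, hO, haO, hOB, hst⟩ := exists_small hna a B₂ (hb.isOpen hB₂) haB₂
    obtain ⟨B₁, hB₁, haB₁, hB₁O⟩ := hb.exists_subset_of_mem_open haO hO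
    have hp : (B₁, B₂) ∈ I := ⟨⟨hB₁, hB₂⟩, O, hO, hB₁O, hOB, hst⟩
    have h1 := hw _ hp
    exact ⟨w (B₁, B₂), ⟨1, _, hp, (one_smul G _).symm⟩, h1.2.1 haB₁, h1.2.2.1.trans hB₂W⟩
  · rintro _ ⟨g, p, hp, rfl⟩ g'
    exact ⟨g' * g, p, hp, (mul_smul g' g (w p)).symm⟩
  · rintro _ ⟨g, p, hp, rfl⟩
    have h2 := (hw p hp).2.2.2
    have h3 : Tendsto (fun h : G => g⁻¹ * h * g) (𝓝 1) (𝓝 (g⁻¹ * 1 * g)) :=
      ((continuous_const.mul continuous_id).mul continuous_const).tendsto _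
    rw [mul_one, inv_mul_cancel] at h3
    refine mem_of_superset (h3 h2) fun h hh => ?_
    have h4 : (g⁻¹ * h * g) • w p = w p := hh
    show h • g • w p = g • w p
    calc h • g • w p = g • (g⁻¹ * h * g) • w p := by
          rw [← mul_smul, ← mul_smul]; congr 1; group
      _ = g • w p := by rw [h4]

end

end Pool.Agent.W_908db9_h43
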