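import Mathlib

/-!
MP_908db9_lc: a compact metrizable `G`-space containing the Polish group `G` as a dense orbit.
-/

open Topology Filter Set TopologicalSpace

namespace Pool.Agent.W_908db9_h43

variable {G : Type} [TopologicalSpace G] [Group G]

/-- Right translation of a function on the group. -/
def act (g : G) (z : G → unitInterval) : G → unitInterval := fun x => z (x * g)

omit [TopologicalSpace G] in
lemma act_apply (g : G) (z : G → unitInterval) (x : G) : act g z x = z (x * g) := rfl

omit [TopologicalSpace G] in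
lemma act_one (z : G → unitInterval) : act (1 : G) z = z := by
  funext x; simp [act]

omit [TopologicalSpace G] in
lemma act_mul (g h : G) (z : G → unitInterval) : act g (act h z) = act (g * h) z := by
  funext x; simp [act, mul_assoc]

omit [TopologicalSpace G] in
lemma continuous_act (g : G) :
    Continuous (act g : (G → unitInterval) → (G → unitInterval)) :=
  continuous_pi fun x => continuous_apply (x * g)

/-- Right uniformly continuous functions which detect the neighbourhoods of `1`. -/
structure Good (f : G → unitInterval) : Prop where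
  unif : ∀ ε > 0, ∃ U ∈ 𝓝 (1 : G), ∀ x : G, ∀ u ∈ U, dist (f (u * x)) (f x) ≤ ε
  sep : ∀ V ∈ 𝓝 (1 : G), ∃ ε > 0, ∀ x : G, dist (f x) (f 1) < ε → x ∈ V

/-- The closure of the orbit of `f`. -/
def Z (f : G → unitInterval) : Type := closure (range fun g : G => act g f)

variable (f : G → unitInterval)

instance : TopologicalSpace (Z f) :=
  inferInstanceAs (TopologicalSpace (closure (range fun g : G => act g f)))

instance : CompactSpace (Z f) :=
  isCompact_iff_compactSpace.mp (isClosed_closure (s := range fun g : G => act g f)).isCompact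

instance : T2Space (Z f) :=
  inferInstanceAs (T2Space (closure (range fun g : G => act g f)))

variable {f}

omit [TopologicalSpace G] in
lemma act_mem (g : G) {z : G → unitInterval} (hz : z ∈ closure (range fun g : G => act g f)) :
    act g z ∈ closure (range fun g : G => act g f) := by
  refine map_mem_closure (continuous_act g) hz ?_
  rintro _ ⟨h, rfl⟩
  exact ⟨g * h, (act_mul g h f).symm⟩

instance : MulAction G (Z f) where
  smul g z := ⟨act g z.1, act_mem g z.2⟩
  one_smul z := Subtype.ext (act_one z.1)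
  mul_smul g h z := Subtype.ext (act_mul g h z.1).symm

omit [TopologicalSpace G] in
lemma smul_val (g : G) (z : Z f) : (g • z).1 = act g z.1 := rfl

omit [TopologicalSpace G] in
lemma smul_val_apply (g : G) (z : Z f) (x : G) : (g • z).1 x = z.1 (x * g) := rfl

lemma unif_mem (hf : Good f) {ε : ℝ} (hε : 0 < ε) :
    ∃ U ∈ 𝓝 (1 : G), ∀ z : Z f, ∀ x : G, ∀ u ∈ U, dist (z.1 (u * x)) (z.1 x) ≤ ε := by
  obtain ⟨U, hU, h⟩ := hf.unif ε hε
  refine ⟨U, hU, fun z x u hu => ?_⟩
  have hc : IsClosed {z : G → unitInterval | dist (z (u * x)) (z x) ≤ ε} :=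
    isClosed_le ((continuous_apply (u * x)).dist (continuous_apply x)) continuous_const
  have : closure (range fun g : G => act g f) ⊆ {z | dist (z (u * x)) (z x) ≤ ε} := by
    refine closure_minimal ?_ hc
    rintro _ ⟨g, rfl⟩
    show dist (f (u * x * g)) (f (x * g)) ≤ ε
    rw [mul_assoc]
    exact h (x * g) u hu
  exact this z.2

section
variable [IsTopologicalGroup G]

lemma continuous_smul_apply (hf : Good f) (x : G) :
    Continuous (fun p : G × Z f => p.2.1 (x * p.1)) := by
  rw [continuous_iff_continuousAt]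
  rintro ⟨g₀, z₀⟩
  rw [ContinuousAt, Metric.tendsto_nhds]
  intro ε hε
  obtain ⟨U, hU, h⟩ := unif_mem hf (half_pos hε)
  have h1 : ∀ᶠ p : G × Z f in 𝓝 (g₀, z₀), x * p.1 * (x * g₀)⁻¹ ∈ U := by
    have : Tendsto (fun p : G × Z f => x * p.1 * (x * g₀)⁻¹) (𝓝 (g₀, z₀))
        (𝓝 (x * g₀ * (x * g₀)⁻¹)) :=
      ((continuous_const.mul continuous_fst).mul continuous_const).tendsto _
    rw [mul_inv_cancel] at this
    exact this hU
  have h2 : ∀ᶠ p : G × Z f in 𝓝 (g₀, z₀), dist (p.2.1 (x * g₀)) (z₀.1 (x * g₀)) < ε / 2 := by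
    have : Tendsto (fun p : G × Z f => p.2.1 (x * g₀)) (𝓝 (g₀, z₀)) (𝓝 (z₀.1 (x * g₀))) :=
      ((continuous_apply (x * g₀)).comp (continuous_subtype_val.comp continuous_snd)).tendsto _
    exact Metric.tendsto_nhds.1 this _ (half_pos hε)
  filter_upwards [h1, h2] with p hp1 hp2
  have h3 := h p.2 (x * g₀) _ hp1
  rw [inv_mul_cancel_right] at h3
  calc dist (p.2.1 (x * p.1)) (z₀.1 (x * g₀))
      ≤ dist (p.2.1 (x * p.1)) (p.2.1 (x * g₀)) + dist (p.2.1 (x * g₀)) (z₀.1 (x * g₀)) :=
        dist_triangle _ _ _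
    _ < ε / 2 + ε / 2 := add_lt_add_of_le_of_lt h3 hp2
    _ = ε := add_halves ε

lemma continuousSMul (hf : Good f) : ContinuousSMul G (Z f) where
  continuous_smul := by
    refine Continuous.subtype_mk ?_ _
    exact continuous_pi fun x => continuous_smul_apply hf x

lemma continuous_val (hf : Good f) (z : Z f) : Continuous z.1 := by
  have := (continuous_smul_apply hf (1 : G)).comp (Continuous.prodMk_left z)
  simpa [Function.comp_def] using this

lemma polish (hf : Good f) [PolishSpace G] : PolishSpace (Z f) := by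
  obtain ⟨D, hDc, hDd⟩ := exists_countable_dense G
  have : Countable D := hDc.to_subtype
  let r : Z f → (D → unitInterval) := fun z x => z.1 x
  have hrc : Continuous r := continuous_pi fun x =>
    (continuous_apply (x : G)).comp continuous_subtype_val
  have hri : Function.Injective r := by
    intro z z' h
    refine Subtype.ext ?_
    exact Continuous.ext_on hDd (continuous_val hf z) (continuous_val hf z')
      fun x hx => congrFun h ⟨x, hx⟩
  exact (hrc.isClosedEmbedding hri).polishSpace

/-- The orbit map. -/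
def orb (f : G → unitInterval) (g : G) : Z f := ⟨act g f, subset_closure ⟨g, rfl⟩⟩

omit [TopologicalSpace G] [IsTopologicalGroup G] in
lemma smul_orb (g h : G) : g • orb f h = orb f (g * h) := Subtype.ext (act_mul g h f)

omit [TopologicalSpace G] [IsTopologicalGroup G] in
lemma denseRange_orb : DenseRange (orb f) := by
  intro z
  have hz : z.1 ∈ closure (range fun g : G => act g f) := z.2
  rw [mem_closure_iff_nhds] at hz ⊢
  intro t ht
  have ht' : t ∈ comap (fun w : Z f => w.1) (𝓝 z.1) := by
    rw [← nhds_induced]; exact ht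
  obtain ⟨s, hs, hst⟩ := ht'
  obtain ⟨_, hws, g, rfl⟩ := hz s hs
  exact ⟨orb f g, hst hws, g, rfl⟩

lemma isEmbedding_orb (hf : Good f) [T2Space G] : IsEmbedding (orb f) := by
  have hcont : Continuous (orb f) := by
    have h1 := (continuousSMul hf).continuous_smul
    have h2 : orb f = fun g : G => g • orb f 1 := by
      funext g; rw [smul_orb, mul_one]
    rw [h2]
    exact h1.comp (Continuous.prodMk_left (orb f 1))
  have key : ∀ g : G, ∀ V ∈ 𝓝 g, ∃ W ∈ 𝓝 (orb f g), orb f ⁻¹' W ⊆ V := by
    intro g V hV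
    have hV' : (fun x => g * x) ⁻¹' V ∈ 𝓝 (1 : G) := by
      have : Tendsto (fun x => g * x) (𝓝 (1 : G)) (𝓝 (g * 1)) :=
        (continuous_const_mul g).tendsto _
      rw [mul_one] at this
      exact this hV
    obtain ⟨ε, hε, h⟩ := hf.sep _ hV'
    refine ⟨{z | dist (z.1 g⁻¹) (f 1) < ε}, ?_, ?_⟩
    · have hc : Continuous fun z : Z f => dist (z.1 g⁻¹) (f 1) :=
        ((continuous_apply g⁻¹).comp continuous_subtype_val).dist continuous_const
      have hop : IsOpen {z : Z f | dist (z.1 g⁻¹) (f 1) < ε} :=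
        isOpen_lt hc continuous_const
      refine hop.mem_nhds ?_
      show dist (f (g⁻¹ * g)) (f 1) < ε
      simpa using hε
    · intro g' hg'
      have : dist (f (g⁻¹ * g')) (f 1) < ε := hg'
      have := h _ this
      simpa using this
  refine ⟨isInducing_iff_nhds.2 fun g => le_antisymm ?_ ?_, ?_⟩
  · exact (hcont.tendsto g).le_comap
  · intro V hV
    obtain ⟨W, hW, hWV⟩ := key g V hV
    exact ⟨W, hW, hWV⟩
  · intro g g' hgg
    by_contra hne
    obtain ⟨V, V', hV, hV', hg, hg', hd⟩ := t2_separation hne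
    obtain ⟨W, hW, hWV⟩ := key g V (hV.mem_nhds hg)
    have : g' ∈ V := hWV (by
      show orb f g' ∈ W
      rw [← hgg]; exact mem_of_mem_nhds hW)
    exact Set.disjoint_left.1 hd this hg'

end

/-- A dense completely metrizable subspace is a `G_δ`. -/
lemma isGδ_range_of_isEmbedding {G Z : Type*} [TopologicalSpace G] [PolishSpace G]
    [TopologicalSpace Z] [T2Space Z] {e : G → Z} (he : IsEmbedding e) (hd : DenseRange e) :
    IsGδ (range e) := by
  let _ := upgradeIsCompletelyMetrizable G
  let V : ℕ → Set Z := fun n =>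
    ⋃₀ {W | IsOpen W ∧ ∀ g h, e g ∈ W → e h ∈ W → dist g h ≤ 1 / ((n : ℝ) + 1)}
  have hV : ∀ n, IsOpen (V n) := fun n => isOpen_sUnion fun W hW => hW.1
  have : range e = ⋂ n, V n := by
    apply Subset.antisymm
    · rintro _ ⟨g, rfl⟩
      refine mem_iInter.2 fun n => ?_
      have hpos : (0 : ℝ) < 1 / ((n : ℝ) + 1) / 2 := by positivity
      have hb : Metric.ball g (1 / ((n : ℝ) + 1) / 2) ∈ 𝓝 g := Metric.ball_mem_nhds g hpos
      rw [he.isInducing.nhds_eq_comap] at hb
      obtain ⟨W, hW, hWb⟩ := hb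
      obtain ⟨W', hW'W, hW'o, hgW'⟩ := mem_nhds_iff.1 hW
      refine mem_sUnion.2 ⟨W', ⟨hW'o, fun a b ha hb => ?_⟩, hgW'⟩
      have h1 : a ∈ Metric.ball g (1 / ((n : ℝ) + 1) / 2) := hWb (hW'W ha)
      have h2 : b ∈ Metric.ball g (1 / ((n : ℝ) + 1) / 2) := hWb (hW'W hb)
      rw [Metric.mem_ball] at h1 h2
      have := dist_triangle_right a b g
      linarith
    · intro z hz
      have hz' : ∀ n : ℕ, ∃ W, IsOpen W ∧ (∀ g h, e g ∈ W → e h ∈ W →
          dist g h ≤ 1 / ((n : ℝ) + 1)) ∧ z ∈ W := by
        intro n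
        obtain ⟨W, ⟨h1, h2⟩, h3⟩ := mem_sUnion.1 (mem_iInter.1 hz n)
        exact ⟨W, h1, h2, h3⟩
      have hne : (comap e (𝓝 z)).NeBot := by
        rw [comap_neBot_iff]
        intro t ht
        obtain ⟨t', ht't, ht'o, hzt'⟩ := mem_nhds_iff.1 ht
        obtain ⟨g, hg⟩ := hd.exists_mem_open ht'o ⟨z, hzt'⟩
        exact ⟨g, ht't hg⟩
      have hC : Cauchy (comap e (𝓝 z)) := by
        rw [Metric.cauchy_iff]
        refine ⟨hne, fun ε hε => ?_⟩
        obtain ⟨n, hn⟩ := exists_nat_one_div_lt hε
        obtain ⟨W, hWo, hW, hzW⟩ := hz' n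
        exact ⟨e ⁻¹' W, preimage_mem_comap (hWo.mem_nhds hzW), fun a ha b hb =>
          (hW a b ha hb).trans_lt hn⟩
      obtain ⟨g, hg⟩ := CompleteSpace.complete hC
      have h1 : Tendsto e (comap e (𝓝 z)) (𝓝 (e g)) :=
        (he.continuous.tendsto g).mono_left hg
      have h2 : Tendsto e (comap e (𝓝 z)) (𝓝 z) := tendsto_comap
      exact ⟨g, tendsto_nhds_unique h1 h2⟩
  rw [this]
  exact IsGδ.iInter_of_isOpen hV

/-- If `G` is not locally compact, the complement of the orbit is dense. -/
lemma dense_compl_range [IsTopologicalGroup G] [PolishSpace G] {f : G → unitInterval}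
    (hf : Good f) (hG : ¬ LocallyCompactSpace G) : Dense (range (orb f))ᶜ := by
  rw [← interior_eq_empty_iff_dense_compl]
  by_contra hne
  obtain ⟨z, hz⟩ := nonempty_iff_ne_empty.2 hne
  have hz' : range (orb f) ∈ 𝓝 z := mem_interior_iff_mem_nhds.1 hz
  obtain ⟨K, hKc, hzK, hK⟩ := exists_compact_subset isOpen_interior hz
  have he := isEmbedding_orb hf
  obtain ⟨g, rfl⟩ := interior_subset hz
  have hK' : IsCompact (orb f ⁻¹' K) :=
    he.isInducing.isCompact_preimage' hKc (hK.trans interior_subset)
  have hn : orb f ⁻¹' K ∈ 𝓝 g :=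
    he.continuous.continuousAt.preimage_mem_nhds (mem_interior_iff_mem_nhds.1 hzK)
  exact hG (hK'.locallyCompactSpace_of_mem_nhds_of_group hn)

end Pool.Agent.W_908db9_h43
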