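import Mathlib

/-!
MP_908db9_lc: continuous actions on subsets and their extensions.
-/

namespace Pool.Agent.W_908db9_h43

/-- `b` is a continuous action of `G` on the subset `B` of `X`. -/
def IsContAction {G X : Type} [TopologicalSpace G] [Group G] [TopologicalSpace X]
    (B : Set X) (b : G → B → B) : Prop :=
  Continuous (fun p : G × B => b p.1 p.2) ∧
    (∀ x : B, b 1 x = x) ∧
    ∀ (g h : G) (x : B), b g (b h x) = b (g * h) x

/-- `(B, b)` is a continuous extension of the action `a` on `A`. -/
def IsExtension {G X : Type} [TopologicalSpace G] [Group G] [TopologicalSpace X]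
    (A : Set X) (a : G → A → A) (B : Set X) (b : G → B → B) : Prop :=
  A ⊆ B ∧ IsContAction B b ∧
    ∀ (g : G) (x : B) (hx : (x : X) ∈ A), ((b g x : B) : X) = ((a g ⟨(x : X), hx⟩ : A) : X)

end Pool.Agent.W_908db9_h43
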