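import Pool.Agent.W_908db9_h43.Fun
import Pool.Agent.W_908db9_h43.Defs

/-!
MP_908db9_lc: pointwise extendability on a `G_δ` set gives an extension to a `G_δ` set.
-/

open Topology Filter Set TopologicalSpace

namespace Pool.Agent.W_908db9_h43

/-- A Polish subspace of a metrizable space is a `G_δ`. -/
lemma isGδ_of_polishSpace {Y : Type*} [TopologicalSpace Y] [MetrizableSpace Y] {S : Set Y}
    (hS : PolishSpace S) : IsGδ S := by
  let i : S → closure S := Set.inclusion subset_closure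
  have hi : IsEmbedding i := IsEmbedding.inclusion subset_closure
  have hd : DenseRange i := by
    intro z
    rw [mem_closure_iff]
    intro N hN hz
    obtain ⟨W, hW, rfl⟩ := isOpen_induced_iff.1 hN
    obtain ⟨x, hxW, hxS⟩ := mem_closure_iff.1 z.2 W hW hz
    exact ⟨i ⟨x, hxS⟩, hxW, ⟨x, hxS⟩, rfl⟩
  obtain ⟨V, hVo, hV⟩ := isGδ_iff_eq_iInter_nat.1 (isGδ_range_of_isEmbedding hi hd)
  choose W hWo hW using fun n => isOpen_induced_iff.1 (hVo n)
  have h1 : S = closure S ∩ ⋂ n, W n := by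
    ext x
    constructor
    · intro hx
      refine ⟨subset_closure hx, mem_iInter.2 fun n => ?_⟩
      have h2 : i ⟨x, hx⟩ ∈ ⋂ n, V n := by rw [← hV]; exact ⟨_, rfl⟩
      have h3 := mem_iInter.1 h2 n
      rw [← hW n] at h3
      exact h3
    · rintro ⟨hx, hxW⟩
      have h2 : (⟨x, hx⟩ : closure S) ∈ ⋂ n, V n := by
        refine mem_iInter.2 fun n => ?_
        rw [← hW n]
        exact mem_iInter.1 hxW n
      rw [← hV] at h2
      obtain ⟨s, hs⟩ := h2
      have h3 : (s : Y) = x := congrArg Subtype.val hs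
      rw [← h3]; exact s.2
  rw [h1]
  exact isClosed_closure.isGδ.inter (IsGδ.iInter_of_isOpen hWo)

section

variable {G X : Type} [TopologicalSpace G] [Group G] [TopologicalSpace X]

/-- The joint limit of the action on `A` at `(g, x)` is `y`. -/
def Lim {A : Set X} (a : G → A → A) (g : G) (x y : X) : Prop :=
  ∀ W ∈ 𝓝 y, ∃ U ∈ 𝓝 g, ∃ V ∈ 𝓝 x, ∀ h ∈ U, ∀ z : A, (z : X) ∈ V → ((a h z : A) : X) ∈ W

variable {A : Set X} {a : G → A → A}

omit [Group G] in
lemma lim_unique [T2Space X] {g : G} {x y y' : X} (hx : x ∈ closure A) (h : Lim a g x y)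
    (h' : Lim a g x y') : y = y' := by
  by_contra hne
  obtain ⟨W, W', hW, hW', hy, hy', hd⟩ := t2_separation hne
  obtain ⟨U, hU, V, hV, h1⟩ := h W (hW.mem_nhds hy)
  obtain ⟨U', hU', V', hV', h2⟩ := h' W' (hW'.mem_nhds hy')
  obtain ⟨z, hz, hzA⟩ := mem_closure_iff_nhds.1 hx _ (inter_mem hV hV')
  exact Set.disjoint_left.1 hd (h1 g (mem_of_mem_nhds hU) ⟨z, hzA⟩ hz.1)
    (h2 g (mem_of_mem_nhds hU') ⟨z, hzA⟩ hz.2)

lemma lim_of_extension {B : Set X} {b : G → B → B} (hb : IsExtension A a B b) (g : G)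
    (x : B) : Lim a g (x : X) ((b g x : B) : X) := by
  obtain ⟨hAB, ⟨hc, -, -⟩, hab⟩ := hb
  intro W hW
  have h1 : (fun p : G × B => ((b p.1 p.2 : B) : X)) ⁻¹' W ∈ 𝓝 (g, x) :=
    ((continuous_subtype_val.comp hc).continuousAt (x := (g, x))).preimage_mem_nhds hW
  rw [nhds_prod_eq, mem_prod_iff] at h1
  obtain ⟨U, hU, T, hT, hUT⟩ := h1
  rw [nhds_subtype_eq_comap] at hT
  obtain ⟨V, hV, hVT⟩ := hT
  refine ⟨U, hU, V, hV, fun h hh z hz => ?_⟩
  have h2 := hab h ⟨z, hAB z.2⟩ z.2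
  have h3 : ((b h ⟨z, hAB z.2⟩ : B) : X) ∈ W :=
    hUT (show (h, (⟨z, hAB z.2⟩ : B)) ∈ U ×ˢ T from ⟨hh, hVT hz⟩)
  rw [h2] at h3
  exact h3

omit [Group G] in
lemma lim_mem_closure {g : G} {x y : X} (hx : x ∈ closure A) (h : Lim a g x y) :
    y ∈ closure A := by
  rw [mem_closure_iff_nhds]
  intro W hW
  obtain ⟨U, hU, V, hV, h1⟩ := h W hW
  obtain ⟨z, hz, hzA⟩ := mem_closure_iff_nhds.1 hx V hV
  exact ⟨_, h1 g (mem_of_mem_nhds hU) ⟨z, hzA⟩ hz, (a g ⟨z, hzA⟩).2⟩

/-- The points of the closure of `A` which lie in some extension domain. -/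
def dom {A : Set X} (a : G → A → A) : Set X :=
  {x | x ∈ closure A ∧ ∃ (B : Set X) (b : G → B → B), IsExtension A a B b ∧ x ∈ B}

lemma exists_val (x : dom a) (g : G) : ∃ y : dom a, Lim a g (x : X) (y : X) := by
  obtain ⟨x, hx, B, b, hb, hxB⟩ := x
  have h1 := lim_of_extension hb g ⟨x, hxB⟩
  exact ⟨⟨(b g ⟨x, hxB⟩ : B), lim_mem_closure hx h1, B, b, hb, (b g ⟨x, hxB⟩).2⟩, h1⟩

/-- The largest extension. -/
noncomputable def bmax (g : G) (x : dom a) : dom a := (exists_val x g).choose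

lemma lim_bmax (g : G) (x : dom a) : Lim a g (x : X) (bmax g x : X) :=
  (exists_val x g).choose_spec

lemma bmax_eq [T2Space X] {B : Set X} {b : G → B → B} (hb : IsExtension A a B b) (g : G)
    (x : dom a) (hx : (x : X) ∈ B) : (bmax g x : X) = (b g ⟨x, hx⟩ : B) :=
  lim_unique x.2.1 (lim_bmax g x) (lim_of_extension hb g ⟨x, hx⟩)

lemma isExtension_self (ha : IsContAction A a) : IsExtension A a A a :=
  ⟨Subset.rfl, ha, fun _ _ _ => rfl⟩

lemma bmax_one [T2Space X] (x : dom a) : bmax 1 x = x := by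
  obtain ⟨B, b, hb, hxB⟩ := x.2.2
  refine Subtype.ext ?_
  rw [bmax_eq hb 1 x hxB, hb.2.1.2.1]

lemma bmax_mul [T2Space X] (g h : G) (x : dom a) : bmax g (bmax h x) = bmax (g * h) x := by
  obtain ⟨B, b, hb, hxB⟩ := x.2.2
  have h1 := bmax_eq hb h x hxB
  have h2 : (bmax h x : X) ∈ B := by rw [h1]; exact (b h ⟨x, hxB⟩).2
  refine Subtype.ext ?_
  rw [bmax_eq hb g (bmax h x) h2, bmax_eq hb (g * h) x hxB, ← hb.2.1.2.2]
  congr 2
  exact Subtype.ext h1

lemma continuous_bmax [T2Space X] [RegularSpace X] :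
    Continuous (fun p : G × dom a => bmax p.1 p.2) := by
  rw [continuous_iff_continuousAt]
  rintro ⟨g, x⟩
  have : Tendsto (fun p : G × dom a => ((bmax p.1 p.2 : dom a) : X)) (𝓝 (g, x))
      (𝓝 (bmax g x : X)) := by
    intro W hW
    obtain ⟨W', hW', hW'c, hW'W⟩ := exists_mem_nhds_isClosed_subset hW
    obtain ⟨U, hU, V, hV, h1⟩ := lim_bmax g x W' hW'
    obtain ⟨V₀, hV₀V, hV₀o, hxV₀⟩ := mem_nhds_iff.1 hV
    have h2 : U ×ˢ (Subtype.val ⁻¹' V₀ : Set (dom a)) ∈ 𝓝 (g, x) :=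
      prod_mem_nhds hU ((hV₀o.preimage continuous_subtype_val).mem_nhds hxV₀)
    refine mem_map.2 (mem_of_superset h2 ?_)
    rintro ⟨h, y⟩ ⟨hh, hy⟩
    refine hW'W ?_
    by_contra hcon
    obtain ⟨U₁, hU₁, V₁, hV₁, h3⟩ := lim_bmax h y W'ᶜ (hW'c.isOpen_compl.mem_nhds hcon)
    obtain ⟨z, hz, hzA⟩ := mem_closure_iff_nhds.1 y.2.1 _ (inter_mem (hV₀o.mem_nhds hy) hV₁)
    exact h3 h (mem_of_mem_nhds hU₁) ⟨z, hzA⟩ hz.2 (h1 h hh ⟨z, hzA⟩ (hV₀V hz.1))
  exact tendsto_subtype_rng.2 this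

end

theorem criterion (G X : Type) [TopologicalSpace G] [Group G] [IsTopologicalGroup G]
    [PolishSpace G] [TopologicalSpace X] [PolishSpace X] (A : Set X) (a : G → A → A)
    (ha : IsContAction A a) (C : Set X) (hC : IsGδ C) (hAC : A ⊆ C)
    (hx : ∀ x ∈ C, ∃ (B : Set X) (b : G → B → B), IsExtension A a B b ∧ x ∈ B) :
    ∃ (B : Set X) (b : G → B → B), IsExtension A a B b ∧ IsGδ B := by
  let act : MulAction G (dom a) :=
    { smul := bmax
      one_smul := bmax_one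
      mul_smul := fun g h x => (bmax_mul g h x).symm }
  have hcs : ContinuousSMul G (dom a) := ⟨continuous_bmax⟩
  have hsm : ∀ (g : G) (x : dom a), g • x = bmax g x := fun _ _ => rfl
  obtain ⟨P, _, _, e, hP, hPs, he, -, hequiv⟩ := polish_extension_all G (dom a)
  -- the set `C` inside `P`
  let C' : Set X := C ∩ closure A
  have hC' : IsGδ C' := hC.inter isClosed_closure.isGδ
  have hC'E : ∀ x ∈ C', x ∈ dom a := fun x hx' => ⟨hx'.2, hx x hx'.1⟩
  have hAC' : A ⊆ C' := fun x hxA => ⟨hAC hxA, subset_closure hxA⟩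
  have hC'P : PolishSpace C' := polishSpace_of_isGδ hC'
  let k : C' → P := fun x => e ⟨x, hC'E x x.2⟩
  have hk : IsEmbedding k := he.comp (IsEmbedding.inclusion hC'E)
  have hkP : PolishSpace (range k) := hk.toHomeomorph.symm.isClosedEmbedding.polishSpace
  have hkδ : IsGδ (range k) := isGδ_of_polishSpace hkP
  obtain ⟨E, hEo, hE⟩ := isGδ_iff_eq_iInter_nat.1 hkδ
  have hkE : ∀ x ∈ range k, ∀ n, x ∈ E n := fun x hx' n => by
    rw [hE] at hx'
    exact mem_iInter.1 hx' n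
  -- the generic part
  let S : Set P := {y | ∀ n, Dense {g : G | g • y ∈ E n}}
  have hSδ : IsGδ S := by
    have h1 : S = ⋂ n, ⋂ o ∈ countableBasis G, {y : P | ∃ g ∈ o, g • y ∈ E n} := by
      ext y
      simp only [mem_iInter]
      constructor
      · intro hy n o ho
        obtain ⟨g, hg, hgE⟩ := (hy n).inter_open_nonempty o
          ((isBasis_countableBasis G).isOpen ho) (nonempty_of_mem_countableBasis ho)
        exact ⟨g, hg, hgE⟩
      · intro hy n
        refine (isBasis_countableBasis G).dense_iff.2 fun o ho _ => ?_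
        obtain ⟨g, hg, hgE⟩ := hy n o ho
        exact ⟨g, hg, hgE⟩
    rw [h1]
    refine IsGδ.iInter fun n => IsGδ.biInter (countable_countableBasis G) fun o _ => ?_
    have h2 : {y : P | ∃ g ∈ o, g • y ∈ E n} = ⋃ g ∈ o, (fun y : P => g • y) ⁻¹' E n := by
      ext y
      simp only [mem_iUnion, mem_preimage, exists_prop]
      rfl
    rw [h2]
    exact (isOpen_biUnion fun g _ => (hEo n).preimage (continuous_const_smul g)).isGδ
  have hSinv : ∀ (h : G), ∀ y ∈ S, h • y ∈ S := by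
    intro h y hy n
    have h1 : {g : G | g • h • y ∈ E n} = (fun g => g * h) ⁻¹' {g : G | g • y ∈ E n} := by
      ext g
      show g • h • y ∈ E n ↔ (g * h) • y ∈ E n
      rw [mul_smul]
    rw [h1]
    exact (hy n).preimage (isOpenMap_mul_right h)
  have hAS : ∀ x : dom a, (x : X) ∈ A → e x ∈ S := by
    intro x hxA n
    have h1 : {g : G | g • e x ∈ E n} = Set.univ := by
      refine eq_univ_of_forall fun g => ?_
      show g • e x ∈ E n
      rw [← hequiv]
      have h2 : (bmax g x : X) ∈ A := by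
        rw [bmax_eq (isExtension_self ha) g x hxA]
        exact (a g ⟨x, hxA⟩).2
      refine hkE _ ⟨⟨(bmax g x : X), hAC' h2⟩, ?_⟩ n
      rfl
    rw [h1]
    exact dense_univ
  have hSrange : S ⊆ range e := by
    intro y hy
    have h1 : Dense (⋂ n, {g : G | g • y ∈ E n}) := by
      refine dense_iInter_of_isOpen_nat (fun n => ?_) hy
      exact (hEo n).preimage (continuous_id.smul continuous_const)
    obtain ⟨g, hg⟩ := h1.nonempty
    have h2 : g • y ∈ range k := by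
      rw [hE]
      exact mem_iInter.2 fun n => mem_iInter.1 hg n
    obtain ⟨c, hc⟩ := h2
    refine ⟨g⁻¹ • ⟨c, hC'E c c.2⟩, ?_⟩
    rw [hequiv]
    have h3 : e ⟨c, hC'E c c.2⟩ = g • y := hc
    rw [h3, inv_smul_smul]
  -- the extension domain
  let B : Set X := {x | ∃ hx : x ∈ dom a, e ⟨x, hx⟩ ∈ S}
  have hBinv : ∀ (g : G) (x : X) (hx : x ∈ dom a), e ⟨x, hx⟩ ∈ S →
      ((bmax g ⟨x, hx⟩ : dom a) : X) ∈ B := by
    intro g x hxd hxS
    refine ⟨(bmax g ⟨x, hxd⟩).2, ?_⟩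
    have h1 : e (g • ⟨x, hxd⟩) = g • e ⟨x, hxd⟩ := hequiv g ⟨x, hxd⟩
    have h2 : e ⟨((bmax g ⟨x, hxd⟩ : dom a) : X), (bmax g ⟨x, hxd⟩).2⟩ = g • e ⟨x, hxd⟩ := h1
    rw [h2]
    exact hSinv g _ hxS
  have hBdom : ∀ x ∈ B, x ∈ dom a := fun x hxB => hxB.1
  have hAdom : ∀ x ∈ A, x ∈ dom a := fun x hxA =>
    ⟨subset_closure hxA, A, a, isExtension_self ha, hxA⟩
  let bb : G → B → B := fun g x =>
    ⟨((bmax (a := a) g ⟨(x : X), hBdom x x.2⟩ : dom a) : X), hBinv g x (hBdom x x.2) x.2.2⟩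
  refine ⟨B, bb, ⟨?_, ⟨?_, ?_, ?_⟩, ?_⟩, ?_⟩
  · intro x hxA
    exact ⟨hAdom x hxA, hAS ⟨x, hAdom x hxA⟩ hxA⟩
  · refine Continuous.subtype_mk ?_ _
    refine continuous_subtype_val.comp (continuous_bmax.comp (continuous_fst.prodMk ?_))
    exact (continuous_subtype_val.comp continuous_snd).subtype_mk _
  · intro x
    refine Subtype.ext ?_
    show ((bmax 1 ⟨x, hBdom x x.2⟩ : dom a) : X) = x
    rw [bmax_one]
  · intro g h x
    refine Subtype.ext ?_
    show ((bmax (a := a) g (bmax h ⟨(x : X), hBdom x x.2⟩) : dom a) : X)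
      = ((bmax (a := a) (g * h) ⟨(x : X), hBdom x x.2⟩ : dom a) : X)
    rw [bmax_mul]
  · intro g x hxA
    show ((bmax g ⟨x, hBdom x x.2⟩ : dom a) : X) = _
    rw [bmax_eq (isExtension_self ha) g ⟨x, hBdom x x.2⟩ hxA]
  · have hSP : PolishSpace S := polishSpace_of_isGδ hSδ
    let j : S → X := fun y => ((he.toHomeomorph.symm ⟨y, hSrange y.2⟩ : dom a) : X)
    have hj : IsEmbedding j := IsEmbedding.subtypeVal.comp
      (he.toHomeomorph.symm.isEmbedding.comp (IsEmbedding.inclusion hSrange))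
    have hjr : range j = B := by
      ext x
      constructor
      · rintro ⟨y, rfl⟩
        refine ⟨(he.toHomeomorph.symm ⟨y, hSrange y.2⟩ : dom a).2, ?_⟩
        have h1 : e (he.toHomeomorph.symm ⟨y, hSrange y.2⟩) = y := by
          have := he.toHomeomorph.apply_symm_apply ⟨y, hSrange y.2⟩
          exact congrArg Subtype.val this
        show e (he.toHomeomorph.symm ⟨y, hSrange y.2⟩) ∈ S
        rw [h1]; exact y.2
      · rintro ⟨hxd, hxS⟩
        refine ⟨⟨e ⟨x, hxd⟩, hxS⟩, ?_⟩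
        show ((he.toHomeomorph.symm ⟨e ⟨x, hxd⟩, hSrange hxS⟩ : dom a) : X) = x
        have h1 : (⟨e ⟨x, hxd⟩, hSrange hxS⟩ : range e) = he.toHomeomorph ⟨x, hxd⟩ := rfl
        rw [h1, Homeomorph.symm_apply_apply]
    have hjP : PolishSpace (range j) := hj.toHomeomorph.symm.isClosedEmbedding.polishSpace
    rw [← hjr]
    exact isGδ_of_polishSpace hjP

end Pool.Agent.W_908db9_h43
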