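import Mathlib

/-!
MP_908db9_lc: the theorem of Hurewicz on the separation by `G_δ` sets (any set against an
analytic set).
-/

open Topology Filter Set TopologicalSpace MeasureTheory PiNat

namespace Pool.Agent.W_908db9_h43

/-- `M` is separated from `A` by a `G_δ` set containing `A`. -/
def Small {X : Type*} [TopologicalSpace X] (A M : Set X) : Prop :=
  ∃ C : Set X, IsGδ C ∧ A ⊆ C ∧ Disjoint C M

lemma Small.mono {X : Type*} [TopologicalSpace X] {A M M' : Set X} (h : Small A M)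
    (hM : M' ⊆ M) : Small A M' := by
  obtain ⟨C, hC, hAC, hd⟩ := h
  exact ⟨C, hC, hAC, hd.mono_right hM⟩

lemma small_biUnion {X ι : Type*} [TopologicalSpace X] {A : Set X} {I : Set ι}
    (hI : I.Countable) {M : ι → Set X} (h : ∀ i ∈ I, Small A (M i)) :
    Small A (⋃ i ∈ I, M i) := by
  choose! C hC hAC hd using h
  refine ⟨⋂ i ∈ I, C i, IsGδ.biInter hI hC, subset_iInter₂ fun i hi => hAC i hi, ?_⟩
  rw [Set.disjoint_left]
  intro x hx hx'
  obtain ⟨i, hi, hxi⟩ := mem_iUnion₂.1 hx'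
  exact Set.disjoint_left.1 (hd i hi) (mem_iInter₂.1 hx i hi) hxi

lemma small_union {X : Type*} [TopologicalSpace X] {A M M' : Set X} (h : Small A M)
    (h' : Small A M') : Small A (M ∪ M') := by
  obtain ⟨C, hC, hAC, hd⟩ := h
  obtain ⟨C', hC', hAC', hd'⟩ := h'
  refine ⟨C ∩ C', hC.inter hC', subset_inter hAC hAC', ?_⟩
  rw [Set.disjoint_left]
  rintro x ⟨hx, hx'⟩ (h | h)
  · exact Set.disjoint_left.1 hd hx h
  · exact Set.disjoint_left.1 hd' hx' h

section

variable {X Z : Type} [MetricSpace X] [CompleteSpace X] [MetricSpace Z] [CompleteSpace Z]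
  [SecondCountableTopology Z]

/-- The states of the construction. -/
def St (A : Set X) (f : Z → X) (Y : Set Z) : Type :=
  {q : Set Z × X × ℝ // IsOpen q.1 ∧ q.2.1 ∈ A ∧ q.2.1 ∈ closure (f '' (q.1 ∩ Y)) ∧ 0 < q.2.2}

omit [CompleteSpace X] [CompleteSpace Z] [SecondCountableTopology Z] in
lemma step_hur {A : Set X} {f : Z → X} (hf : Continuous f) {Y : Set Z}
    (hAN : ∀ z, f z ∉ A)
    (hstar : ∀ O : Set Z, IsOpen O → (O ∩ Y).Nonempty → ∃ x ∈ A, x ∈ closure (f '' (O ∩ Y)))
    (s : St A f Y) : ∃ s0 s1 : St A f Y,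
      (s0.1.1 = s.1.1 ∧ s0.1.2.1 = s.1.2.1 ∧ s0.1.2.2 ≤ s.1.2.2 / 2 ∧
        Metric.closedBall s0.1.2.1 s0.1.2.2 ⊆ Metric.ball s.1.2.1 s.1.2.2) ∧
      (s1.1.2.2 ≤ s.1.2.2 / 2 ∧
        Metric.closedBall s1.1.2.1 s1.1.2.2 ⊆ Metric.ball s.1.2.1 s.1.2.2 ∧
        closure s1.1.1 ⊆ s.1.1 ∧ (∀ u ∈ s1.1.1, ∀ v ∈ s1.1.1, dist u v ≤ s.1.2.2) ∧
        ∀ u ∈ s1.1.1, f u ∈ Metric.ball s.1.2.1 s.1.2.2) ∧
      Disjoint (Metric.closedBall s0.1.2.1 s0.1.2.2) (Metric.closedBall s1.1.2.1 s1.1.2.2) := by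
  obtain ⟨⟨O, x, r⟩, hO, hxA, hxc, hr⟩ := s
  dsimp only at hO hxA hxc hr ⊢
  obtain ⟨_, ⟨z, ⟨hzO, hzY⟩, rfl⟩, hzx⟩ := Metric.mem_closure_iff.1 hxc (r / 2) (half_pos hr)
  have hne : f z ≠ x := fun h => hAN z (h ▸ hxA)
  let ρ : ℝ := dist x (f z)
  have hρ : 0 < ρ := dist_pos.2 hne.symm
  have hρr : ρ < r / 2 := hzx
  obtain ⟨η₁, hη₁, hb₁⟩ := Metric.isOpen_iff.1 hO z hzO
  obtain ⟨η₂, hη₂, hb₂⟩ := Metric.continuous_iff.1 hf z (ρ / 4) (by linarith)
  let η : ℝ := min (min (η₁ / 2) η₂) (r / 2)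
  have hη : 0 < η := lt_min (lt_min (half_pos hη₁) hη₂) (half_pos hr)
  have hηη₁ : η ≤ η₁ / 2 := (min_le_left _ _).trans (min_le_left _ _)
  have hηη₂ : η ≤ η₂ := (min_le_left _ _).trans (min_le_right _ _)
  have hηr : η ≤ r / 2 := min_le_right _ _
  obtain ⟨x', hx'A, hx'c⟩ := hstar (Metric.ball z η) Metric.isOpen_ball
    ⟨z, Metric.mem_ball_self hη, hzY⟩
  have hfb : ∀ u ∈ Metric.ball z η, dist (f u) (f z) < ρ / 4 := fun u hu =>
    hb₂ u ((Metric.mem_ball.1 hu).trans_le hηη₂)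
  have hx'z : dist x' (f z) ≤ ρ / 4 := by
    have h1 : closure (f '' (Metric.ball z η ∩ Y)) ⊆ Metric.closedBall (f z) (ρ / 4) := by
      refine closure_minimal ?_ Metric.isClosed_closedBall
      rintro _ ⟨u, hu, rfl⟩
      exact Metric.mem_closedBall.2 (hfb u hu.1).le
    exact Metric.mem_closedBall.1 (h1 hx'c)
  refine ⟨⟨(O, x, ρ / 4), hO, hxA, hxc, by show 0 < ρ / 4; linarith⟩,
    ⟨(Metric.ball z η, x', ρ / 4), Metric.isOpen_ball, hx'A, hx'c, by show 0 < ρ / 4; linarith⟩,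
    ⟨rfl, rfl, ?_, ?_⟩, ⟨?_, ?_, ?_, ?_, ?_⟩, ?_⟩
  · show ρ / 4 ≤ r / 2
    linarith
  · intro y hy
    rw [Metric.mem_closedBall] at hy
    rw [Metric.mem_ball]
    dsimp only at hy
    linarith
  · show ρ / 4 ≤ r / 2
    linarith
  · intro y hy
    rw [Metric.mem_closedBall] at hy
    rw [Metric.mem_ball]
    dsimp only at hy
    have h1 := dist_triangle4 y x' (f z) x
    rw [dist_comm (f z) x] at h1
    have h2 : dist x (f z) = ρ := rfl
    linarith
  · refine Metric.closure_ball_subset_closedBall.trans ?_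
    intro y hy
    rw [Metric.mem_closedBall] at hy
    exact hb₁ (Metric.mem_ball.2 (by linarith))
  · intro u hu v hv
    dsimp only at hu hv
    rw [Metric.mem_ball] at hu hv
    have h1 := dist_triangle_right u v z
    show dist u v ≤ r
    linarith
  · intro u hu
    have h1 := hfb u hu
    rw [Metric.mem_ball]
    have h2 := dist_triangle (f u) (f z) x
    rw [dist_comm (f z) x] at h2
    have h3 : dist x (f z) = ρ := rfl
    show dist (f u) x < r
    linarith
  · rw [Set.disjoint_left]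
    intro y hy hy'
    rw [Metric.mem_closedBall] at hy hy'
    dsimp only at hy hy'
    have h1 := dist_triangle4 x y x' (f z)
    rw [dist_comm x y] at h1
    have h3 : dist x (f z) = ρ := rfl
    linarith

theorem hur_aux {A : Set X} {f : Z → X} (hf : Continuous f) (hAN : ∀ z, f z ∉ A)
    (hsep : ¬ Small A (range f)) :
    ∃ φ : (ℕ → Bool) → X, Continuous φ ∧ Function.Injective φ ∧
      (∀ x, (∃ n, ∀ m ≥ n, x m = false) → φ x ∈ A) ∧
      (∀ x, (¬ ∃ n, ∀ m ≥ n, x m = false) → φ x ∈ range f) := by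
  classical
  let b := countableBasis Z
  let I : Set (Set Z) := {o | o ∈ b ∧ Small A (f '' o)}
  have hIc : I.Countable := (countable_countableBasis Z).mono fun o ho => ho.1
  let W : Set Z := ⋃ o ∈ I, o
  have hWo : IsOpen W := isOpen_biUnion fun o ho => (isBasis_countableBasis Z).isOpen ho.1
  have hWs : Small A (f '' W) := by
    have h1 : f '' W = ⋃ o ∈ I, f '' o := by
      show f '' (⋃ o ∈ I, o) = _
      rw [image_iUnion₂]
    rw [h1]
    exact small_biUnion hIc fun o ho => ho.2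
  let Y : Set Z := Wᶜ
  have hYc : IsClosed Y := hWo.isClosed_compl
  have hstar : ∀ O : Set Z, IsOpen O → (O ∩ Y).Nonempty →
      ∃ x ∈ A, x ∈ closure (f '' (O ∩ Y)) := by
    rintro O hO ⟨y, hyO, hyY⟩
    by_contra hcon
    push Not at hcon
    have h1 : Small A (f '' (O ∩ Y)) :=
      ⟨(closure (f '' (O ∩ Y)))ᶜ, isClosed_closure.isOpen_compl.isGδ, hcon,
        Set.disjoint_left.2 fun x hx hx' => hx (subset_closure hx')⟩
    obtain ⟨o, ho, hyo, hoO⟩ := (isBasis_countableBasis Z).exists_subset_of_mem_open hyO hO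
    have h2 : f '' o ⊆ f '' (O ∩ Y) ∪ f '' W := by
      rintro _ ⟨u, hu, rfl⟩
      by_cases huW : u ∈ W
      · exact Or.inr ⟨u, huW, rfl⟩
      · exact Or.inl ⟨u, ⟨hoO hu, huW⟩, rfl⟩
    have h3 : o ∈ I := ⟨ho, (small_union h1 hWs).mono h2⟩
    exact hyY (mem_iUnion₂.2 ⟨o, h3, hyo⟩)
  have hYne : (Set.univ ∩ Y).Nonempty := by
    rw [univ_inter]
    by_contra hcon
    rw [not_nonempty_iff_eq_empty] at hcon
    have h1 : W = Set.univ := by
      have h2 : Wᶜ = ∅ := hcon
      exact compl_empty_iff.1 h2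
    rw [h1, image_univ] at hWs
    exact hsep hWs
  obtain ⟨x₀, hx₀A, hx₀c⟩ := hstar Set.univ isOpen_univ hYne
  let s₀ : St A f Y := ⟨(Set.univ, x₀, 1), isOpen_univ, hx₀A, hx₀c, one_pos⟩
  choose c0 c1 h0 h1 hdis using step_hur hf (Y := Y) hAN hstar
  let T : List Bool → St A f Y := fun l =>
    List.rec s₀ (fun a _ s => if a then c1 s else c0 s) l
  have hT0 : ∀ l, T (false :: l) = c0 (T l) := fun l => rfl
  have hT1 : ∀ l, T (true :: l) = c1 (T l) := fun l => rfl
  let S : List Bool → Set X := fun l => Metric.ball (T l).1.2.1 (T l).1.2.2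
  have hrhalf : ∀ (a : Bool) (l : List Bool), (T (a :: l)).1.2.2 ≤ (T l).1.2.2 / 2 := by
    intro a l
    cases a
    · rw [hT0]; exact (h0 _).2.2.1
    · rw [hT1]; exact (h1 _).1
  have hr : ∀ l : List Bool, (T l).1.2.2 ≤ (1 / 2 : ℝ) ^ l.length := by
    intro l
    induction l with
    | nil => exact le_of_eq (pow_zero _).symm
    | cons a l ih =>
      have := hrhalf a l
      rw [List.length_cons, pow_succ]
      linarith
  have hlen : ∀ (x : ℕ → Bool) (n : ℕ), (res x n).length = n := fun x n => res_length x n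
  have hrx : ∀ (x : ℕ → Bool) (n : ℕ), (T (res x n)).1.2.2 ≤ (1 / 2 : ℝ) ^ n := by
    intro x n
    have := hr (res x n)
    rwa [hlen] at this
  have hanti : CantorScheme.ClosureAntitone S := by
    intro l a
    refine Metric.closure_ball_subset_closedBall.trans ?_
    cases a
    · rw [hT0]; exact (h0 _).2.2.2
    · rw [hT1]; exact (h1 _).2.1
  have hdisj : CantorScheme.Disjoint S := by
    intro l a c hac
    have key : Disjoint (S (false :: l)) (S (true :: l)) :=
      (hdis (T l)).mono Metric.ball_subset_closedBall Metric.ball_subset_closedBall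
    cases a <;> cases c
    · exact absurd rfl hac
    · exact key
    · exact key.symm
    · exact absurd rfl hac
  have hpow : Tendsto (fun n : ℕ => (1 / 2 : ℝ) ^ n) atTop (𝓝 0) :=
    tendsto_pow_atTop_nhds_zero_of_lt_one (by norm_num) (by norm_num)
  have hvan : CantorScheme.VanishingDiam S := by
    intro x
    have h2 : ∀ n, Metric.ediam (S (res x n)) ≤ ENNReal.ofReal (2 * (1 / 2 : ℝ) ^ n) := by
      intro n
      refine Metric.ediam_le_of_forall_dist_le fun y hy z hz => ?_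
      have h3 := Metric.mem_ball.1 hy
      have h4 := Metric.mem_ball.1 hz
      have h5 := dist_triangle_right y z (T (res x n)).1.2.1
      have h6 := hrx x n
      linarith
    have h3 : Tendsto (fun n : ℕ => ENNReal.ofReal (2 * (1 / 2 : ℝ) ^ n)) atTop (𝓝 0) := by
      have h4 := (ENNReal.continuous_ofReal.tendsto _).comp (hpow.const_mul 2)
      rw [mul_zero, ENNReal.ofReal_zero] at h4
      exact h4
    exact tendsto_of_tendsto_of_tendsto_of_le_of_le tendsto_const_nhds h3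
      (fun n => bot_le) h2
  have hne : ∀ l, (S l).Nonempty := fun l => ⟨_, Metric.mem_ball_self (T l).2.2.2.2⟩
  have hdom := hanti.map_of_vanishingDiam hvan hne
  have hmemdom : ∀ x, x ∈ (CantorScheme.inducedMap S).1 := fun x => hdom ▸ mem_univ x
  let φ : (ℕ → Bool) → X := fun x => (CantorScheme.inducedMap S).2 ⟨x, hmemdom x⟩
  have hφ : ∀ x n, φ x ∈ S (res x n) := fun x n => CantorScheme.map_mem ⟨x, hmemdom x⟩ n
  refine ⟨φ, ?_, ?_, ?_, ?_⟩
  · exact hvan.map_continuous.comp (continuous_id.subtype_mk hmemdom)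
  · intro x y hxy
    have := hdisj.map_injective hxy
    exact congrArg Subtype.val this
  · rintro x ⟨n, hn⟩
    have h2 : ∀ m ≥ n, (T (res x m)).1.2.1 = (T (res x n)).1.2.1 := by
      intro m hm
      induction m, hm using Nat.le_induction with
      | base => rfl
      | succ m hm ih =>
        rw [res_succ, hn m hm, hT0, (h0 _).2.1, ih]
    have h3 : dist (φ x) (T (res x n)).1.2.1 ≤ 0 := by
      refine ge_of_tendsto hpow ?_
      filter_upwards [eventually_ge_atTop n] with m hm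
      have h4 := Metric.mem_ball.1 (hφ x m)
      rw [h2 m hm] at h4
      exact h4.le.trans (hrx x m)
    have h4 : φ x = (T (res x n)).1.2.1 := dist_le_zero.1 h3
    rw [h4]
    exact (T (res x n)).2.2.1
  · intro x hx
    push Not at hx
    have hOanti : ∀ m, (T (res x (m + 1))).1.1 ⊆ (T (res x m)).1.1 := by
      intro m
      rw [res_succ]
      cases x m
      · rw [hT0, (h0 _).1]
      · rw [hT1]; exact subset_closure.trans (h1 _).2.2.1
    have hOa : Antitone fun m => (T (res x m)).1.1 := antitone_nat_of_succ_le hOanti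
    have hzex : ∀ m, ((T (res x m)).1.1 ∩ Y).Nonempty := by
      intro m
      by_contra hcon
      rw [not_nonempty_iff_eq_empty] at hcon
      have h2 := (T (res x m)).2.2.2.1
      rw [hcon, image_empty, closure_empty] at h2
      exact h2
    choose z hz using hzex
    have htrue : ∀ n, ∃ m ≥ n, x m = true := by
      intro n
      obtain ⟨m, hm, hxm⟩ := hx n
      exact ⟨m, hm, by simpa using hxm⟩
    have hstep1 : ∀ m, x m = true → closure (T (res x (m + 1))).1.1 ⊆ (T (res x m)).1.1 ∧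
        (∀ u ∈ (T (res x (m + 1))).1.1, ∀ v ∈ (T (res x (m + 1))).1.1,
          dist u v ≤ (T (res x m)).1.2.2) ∧
        ∀ u ∈ (T (res x (m + 1))).1.1, f u ∈ S (res x m) := by
      intro m hm
      rw [res_succ, hm, hT1]
      exact ⟨(h1 _).2.2.1, (h1 _).2.2.2.1, (h1 _).2.2.2.2⟩
    have hcau : CauchySeq z := by
      rw [Metric.cauchySeq_iff]
      intro ε hε
      obtain ⟨k, hk⟩ := (hpow.eventually (gt_mem_nhds hε)).exists_forall_of_atTop
      obtain ⟨m, hm, hxm⟩ := htrue k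
      refine ⟨m + 1, fun i hi j hj => ?_⟩
      have h2 := (hstep1 m hxm).2.1 (z i) (hOa hi (hz i).1) (z j) (hOa hj (hz j).1)
      exact (h2.trans (hrx x m)).trans_lt (hk m hm)
    obtain ⟨w, hw⟩ := cauchySeq_tendsto_of_complete hcau
    have hwO : ∀ m, w ∈ closure (T (res x m)).1.1 := by
      intro m
      refine mem_closure_of_tendsto hw ?_
      filter_upwards [eventually_ge_atTop m] with j hj
      exact hOa hj (hz j).1
    have hwO' : ∀ m, w ∈ (T (res x m)).1.1 := by
      intro m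
      obtain ⟨k, hk, hxk⟩ := htrue m
      exact hOa hk ((hstep1 k hxk).1 (hwO (k + 1)))
    refine ⟨w, ?_⟩
    have h2 : dist (f w) (φ x) ≤ 0 := by
      refine le_of_forall_pos_le_add fun ε hε => ?_
      obtain ⟨k, hk⟩ := (hpow.eventually (gt_mem_nhds (half_pos hε))).exists_forall_of_atTop
      obtain ⟨m, hm, hxm⟩ := htrue k
      have h3 := Metric.mem_ball.1 ((hstep1 m hxm).2.2 w (hwO' (m + 1)))
      have h4 := Metric.mem_ball.1 (hφ x m)
      have h5 := dist_triangle_right (f w) (φ x) (T (res x m)).1.2.1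
      have h6 := hrx x m
      have h7 := hk m hm
      linarith
    exact dist_le_zero.1 h2

end

/-- The theorem of Hurewicz. -/
theorem hurewicz {X : Type} [TopologicalSpace X] [PolishSpace X] {A N : Set X}
    (hN : AnalyticSet N) (hAN : Disjoint A N) (hsep : ¬ ∃ C, IsGδ C ∧ A ⊆ C ∧ Disjoint C N) :
    ∃ φ : (ℕ → Bool) → X, Continuous φ ∧ Function.Injective φ ∧
      (∀ x, (∃ n, ∀ m ≥ n, x m = false) → φ x ∈ A) ∧
      (∀ x, (¬ ∃ n, ∀ m ≥ n, x m = false) → φ x ∈ N) := by
  obtain ⟨Z, _, _, f, hf, rfl⟩ := analyticSet_iff_exists_polishSpace_range.1 hN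
  let _ := upgradeIsCompletelyMetrizable X
  let _ := upgradeIsCompletelyMetrizable Z
  exact hur_aux hf (fun z hz => Set.disjoint_left.1 hAN hz ⟨z, rfl⟩) hsep

end Pool.Agent.W_908db9_h43
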