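import Pool.Agent.W_908db9_h43.Crit
import Pool.Agent.W_908db9_h43.Hur

/-!
MP_908db9_lc: a dichotomy of Hurewicz type for the extension of actions to `G_δ` sets.
-/

open Topology Filter Set TopologicalSpace MeasureTheory

namespace Pool.Agent.W_908db9_h43

section

variable {G X : Type} [TopologicalSpace G] [Group G] [TopologicalSpace X]
variable {A : Set X} {a : G → A → A}

lemma lim_mul [T2Space X] (ha : IsContAction A a) {g h : G} {x y z z' : X}
    (hx : x ∈ closure A) (h1 : Lim a g x y) (h2 : Lim a h y z) (h3 : Lim a (h * g) x z') :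
    z = z' := by
  by_contra hne
  obtain ⟨W, W', hW, hW', hz, hz', hd⟩ := t2_separation hne
  obtain ⟨U, hU, V, hV, h4⟩ := h2 W (hW.mem_nhds hz)
  obtain ⟨U', hU', V', hV', h5⟩ := h3 W' (hW'.mem_nhds hz')
  obtain ⟨U₁, hU₁, V₁, hV₁, h6⟩ := h1 V hV
  obtain ⟨z₀, hz₀, hz₀A⟩ := mem_closure_iff_nhds.1 hx _ (inter_mem hV₁ hV')
  have h7 := h6 g (mem_of_mem_nhds hU₁) ⟨z₀, hz₀A⟩ hz₀.1
  have h8 := h4 h (mem_of_mem_nhds hU) (a g ⟨z₀, hz₀A⟩) h7
  rw [ha.2.2] at h8
  exact Set.disjoint_left.1 hd h8 (h5 (h * g) (mem_of_mem_nhds hU') ⟨z₀, hz₀A⟩ hz₀.2)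

lemma lim_one [T2Space X] (ha : IsContAction A a) {x y : X} (hx : x ∈ closure A)
    (h : Lim a 1 x y) : y = x := by
  by_contra hne
  obtain ⟨W, W', hW, hW', hy, hx', hd⟩ := t2_separation hne
  obtain ⟨U, hU, V, hV, h1⟩ := h W (hW.mem_nhds hy)
  obtain ⟨z, hz, hzA⟩ := mem_closure_iff_nhds.1 hx _ (inter_mem hV (hW'.mem_nhds hx'))
  have h2 := h1 1 (mem_of_mem_nhds hU) ⟨z, hzA⟩ hz.1
  rw [ha.2.1] at h2
  exact Set.disjoint_left.1 hd h2 hz.2

omit [Group G] in
lemma continuous_lim [RegularSpace X] {S : Type} [TopologicalSpace S] (u : S → G)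
    (v : S → X) (hu : Continuous u) (hv : Continuous v) (hcl : ∀ s, v s ∈ closure A)
    (f : S → X) (hf : ∀ s, Lim a (u s) (v s) (f s)) : Continuous f := by
  rw [continuous_iff_continuousAt]
  intro s W hW
  obtain ⟨W', hW', hW'c, hW'W⟩ := exists_mem_nhds_isClosed_subset hW
  obtain ⟨U, hU, V, hV, h1⟩ := hf s W' hW'
  obtain ⟨V₀, hV₀V, hV₀o, hxV₀⟩ := mem_nhds_iff.1 hV
  have h2 : u ⁻¹' U ∩ v ⁻¹' V₀ ∈ 𝓝 s :=
    inter_mem (hu.continuousAt.preimage_mem_nhds hU)
      (hv.continuousAt.preimage_mem_nhds (hV₀o.mem_nhds hxV₀))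
  refine mem_map.2 (mem_of_superset h2 ?_)
  rintro t ⟨ht1, ht2⟩
  refine hW'W ?_
  by_contra hcon
  obtain ⟨U₁, hU₁, V₁, hV₁, h3⟩ := hf t W'ᶜ (hW'c.isOpen_compl.mem_nhds hcon)
  obtain ⟨z, hz, hzA⟩ := mem_closure_iff_nhds.1 (hcl t) _ (inter_mem (hV₀o.mem_nhds ht2) hV₁)
  exact h3 (u t) (mem_of_mem_nhds hU₁) ⟨z, hzA⟩ hz.2 (h1 (u t) ht1 ⟨z, hzA⟩ (hV₀V hz.1))

lemma mem_dom_iff [T2Space X] [RegularSpace X] (ha : IsContAction A a) {x : X} :
    x ∈ dom a ↔ x ∈ closure A ∧ ∀ g, ∃ y, Lim a g x y ∧ ∀ h, ∃ z, Lim a h y z := by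
  constructor
  · intro hx
    refine ⟨hx.1, fun g => ?_⟩
    obtain ⟨y, hy⟩ := exists_val ⟨x, hx⟩ g
    refine ⟨y, hy, fun h => ?_⟩
    obtain ⟨z, hz⟩ := exists_val y h
    exact ⟨z, hz⟩
  · intro hx
    let D : Set X := {x | x ∈ closure A ∧ ∀ g, ∃ y, Lim a g x y ∧ ∀ h, ∃ z, Lim a h y z}
    have hval : ∀ (g : G) (x : D), ∃ y : D, Lim a g (x : X) (y : X) := by
      rintro g ⟨x, hxc, hx⟩
      obtain ⟨y, hy, hyh⟩ := hx g
      refine ⟨⟨y, lim_mem_closure hxc hy, fun h => ?_⟩, hy⟩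
      obtain ⟨z, hz⟩ := hyh h
      obtain ⟨z', hz', hz'k⟩ := hx (h * g)
      have h1 : z = z' := lim_mul ha hxc hy hz hz'
      subst h1
      exact ⟨z, hz, hz'k⟩
    choose b hb using hval
    refine ⟨hx.1, D, b, ⟨?_, ⟨?_, ?_, ?_⟩, ?_⟩, hx⟩
    · intro x hxA
      refine ⟨subset_closure hxA, fun g =>
        ⟨_, lim_of_extension (isExtension_self ha) g ⟨x, hxA⟩, fun h =>
          ⟨_, lim_of_extension (isExtension_self ha) h (a g ⟨x, hxA⟩)⟩⟩⟩
    · refine continuous_induced_rng.2 ?_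
      exact continuous_lim (fun p : G × D => p.1) (fun p => (p.2 : X)) continuous_fst
        (continuous_subtype_val.comp continuous_snd) (fun p => p.2.2.1) _
        (fun p => hb p.1 p.2)
    · intro x
      exact Subtype.ext (lim_one ha x.2.1 (hb 1 x))
    · intro g h x
      exact Subtype.ext (lim_mul ha x.2.1 (hb h x) (hb g (b h x)) (hb (g * h) x))
    · intro g x hxA
      exact lim_unique x.2.1 (hb g x) (lim_of_extension (isExtension_self ha) g ⟨x, hxA⟩)

omit [Group G] in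
lemma isGδ_hasLim [PolishSpace X] (a : G → A → A) :
    ∃ E : Set (G × X), IsGδ E ∧
      ∀ p : G × X, p.2 ∈ closure A → (p ∈ E ↔ ∃ y, Lim a p.1 p.2 y) := by
  let _ := upgradeIsCompletelyMetrizable X
  let En : ℕ → Set (G × X) := fun n => {p | ∃ U ∈ 𝓝 p.1, ∃ V ∈ 𝓝 p.2, ∀ h ∈ U, ∀ h' ∈ U,
    ∀ z z' : A, (z : X) ∈ V → (z' : X) ∈ V →
      dist ((a h z : A) : X) ((a h' z' : A) : X) ≤ 1 / ((n : ℝ) + 1)}
  have hopen : ∀ n, IsOpen (En n) := by
    intro n
    rw [isOpen_iff_mem_nhds]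
    rintro p ⟨U, hU, V, hV, h⟩
    obtain ⟨U', hU'U, hU'o, hpU'⟩ := mem_nhds_iff.1 hU
    obtain ⟨V', hV'V, hV'o, hpV'⟩ := mem_nhds_iff.1 hV
    refine mem_of_superset ((hU'o.prod hV'o).mem_nhds ⟨hpU', hpV'⟩) ?_
    rintro q ⟨hq1, hq2⟩
    exact ⟨U', hU'o.mem_nhds hq1, V', hV'o.mem_nhds hq2, fun k hk k' hk' z z' hz hz' =>
      h k (hU'U hk) k' (hU'U hk') z z' (hV'V hz) (hV'V hz')⟩
  refine ⟨⋂ n, En n, IsGδ.iInter_of_isOpen hopen, fun p hp => ⟨fun hpE => ?_, ?_⟩⟩
  · have hne : (comap (Subtype.val : A → X) (𝓝 p.2)).NeBot := mem_closure_iff_comap_neBot.1 hp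
    have hF : Cauchy (map (fun q : G × A => ((a q.1 q.2 : A) : X))
        (𝓝 p.1 ×ˢ comap (Subtype.val : A → X) (𝓝 p.2))) := by
      rw [Metric.cauchy_iff]
      refine ⟨inferInstance, fun ε hε => ?_⟩
      obtain ⟨n, hn⟩ := exists_nat_one_div_lt hε
      obtain ⟨U, hU, V, hV, h⟩ := mem_iInter.1 hpE n
      refine ⟨(fun q : G × A => ((a q.1 q.2 : A) : X)) ''
        (U ×ˢ ((Subtype.val : A → X) ⁻¹' V)),
        image_mem_map (prod_mem_prod hU (preimage_mem_comap hV)), ?_⟩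
      rintro _ ⟨⟨h1, z1⟩, ⟨hh1, hz1⟩, rfl⟩ _ ⟨⟨h2, z2⟩, ⟨hh2, hz2⟩, rfl⟩
      exact (h h1 hh1 h2 hh2 z1 z2 hz1 hz2).trans_lt hn
    obtain ⟨y, hy⟩ := CompleteSpace.complete hF
    refine ⟨y, fun W hW => ?_⟩
    have h1 := hy hW
    rw [mem_map, mem_prod_iff] at h1
    obtain ⟨U, hU, T, hT, hUT⟩ := h1
    obtain ⟨V, hV, hVT⟩ := mem_comap.1 hT
    exact ⟨U, hU, V, hV, fun h hh z hz =>
      hUT (show (h, z) ∈ U ×ˢ T from ⟨hh, hVT hz⟩)⟩
  · rintro ⟨y, hy⟩
    refine mem_iInter.2 fun n => ?_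
    have hpos : (0 : ℝ) < 1 / ((n : ℝ) + 1) / 2 := by positivity
    obtain ⟨U, hU, V, hV, h⟩ := hy (Metric.ball y (1 / ((n : ℝ) + 1) / 2))
      (Metric.ball_mem_nhds y hpos)
    refine ⟨U, hU, V, hV, fun k hk k' hk' z z' hz hz' => ?_⟩
    have h1 := Metric.mem_ball.1 (h k hk z hz)
    have h2 := Metric.mem_ball.1 (h k' hk' z' hz')
    have h3 := dist_triangle_right ((a k z : A) : X) ((a k' z' : A) : X) y
    linarith

lemma analytic_compl [PolishSpace G] [PolishSpace X] (ha : IsContAction A a) :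
    AnalyticSet (closure A \ dom a) := by
  obtain ⟨E, hE, hEiff⟩ := isGδ_hasLim a
  let E' : Set (G × X) := E ∩ (Prod.snd ⁻¹' closure A)
  have hE' : IsGδ E' := hE.inter (isClosed_closure.preimage continuous_snd).isGδ
  have hE'P : PolishSpace E' := polishSpace_of_isGδ hE'
  have hex : ∀ p : E', ∃ y, Lim a p.1.1 p.1.2 y := fun p => (hEiff p.1 p.2.2).1 p.2.1
  choose l hl using hex
  have hlc : Continuous l := continuous_lim (fun p : E' => p.1.1) (fun p => p.1.2)
    (continuous_fst.comp continuous_subtype_val) (continuous_snd.comp continuous_subtype_val)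
    (fun p => p.2.2) l hl
  let F : Set (G × E') := (fun q : G × E' => (q.1, l q.2)) ⁻¹' Eᶜ
  have hN : closure A \ dom a = ⋃ b : Bool, cond b
      ((Prod.snd : G × X → X) '' (Eᶜ ∩ (Prod.snd ⁻¹' closure A)))
      ((fun q : G × E' => q.2.1.2) '' F) := by
    ext x
    rw [mem_iUnion, Bool.exists_bool]
    constructor
    · rintro ⟨hxc, hxd⟩
      rw [mem_dom_iff ha] at hxd
      push Not at hxd
      obtain ⟨g, hg⟩ := hxd hxc
      by_cases hgE : (g, x) ∈ E
      · left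
        obtain ⟨h, hh⟩ := hg (l ⟨(g, x), hgE, hxc⟩) (hl ⟨(g, x), hgE, hxc⟩)
        refine ⟨(h, ⟨(g, x), hgE, hxc⟩), ?_, rfl⟩
        intro hcon
        obtain ⟨z, hz⟩ := (hEiff (h, l ⟨(g, x), hgE, hxc⟩)
          (lim_mem_closure hxc (hl ⟨(g, x), hgE, hxc⟩))).1 hcon
        exact hh z hz
      · right
        exact ⟨(g, x), ⟨hgE, hxc⟩, rfl⟩
    · rintro (⟨⟨h, ⟨⟨g, y⟩, hgE, hyc⟩⟩, hq, rfl⟩ | ⟨⟨g, y⟩, ⟨hgE, hyc⟩, rfl⟩)
      · refine ⟨hyc, fun hxd => hq ?_⟩
        rw [mem_dom_iff ha] at hxd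
        obtain ⟨z, hz, hzh⟩ := hxd.2 g
        have h1 := hl ⟨(g, y), hgE, hyc⟩
        have h2 : l ⟨(g, y), hgE, hyc⟩ = z := lim_unique hyc h1 hz
        refine (hEiff (h, l ⟨(g, y), hgE, hyc⟩) (lim_mem_closure hyc h1)).2 ?_
        obtain ⟨w, hw⟩ := hzh h
        rw [← h2] at hw
        exact ⟨w, hw⟩
      · refine ⟨hyc, fun hxd => hgE ?_⟩
        rw [mem_dom_iff ha] at hxd
        obtain ⟨z, hz, -⟩ := hxd.2 g
        exact (hEiff (g, y) hyc).2 ⟨z, hz⟩
  rw [hN]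
  refine AnalyticSet.iUnion fun b => ?_
  cases b
  · show AnalyticSet ((fun q : G × E' => q.2.1.2) '' F)
    let _ : MeasurableSpace (G × E') := borel _
    have _ : BorelSpace (G × E') := ⟨rfl⟩
    have hF : MeasurableSet F := by
      have h1 : IsGδ ((fun q : G × E' => (q.1, l q.2)) ⁻¹' E) :=
        hE.preimage (continuous_fst.prodMk (hlc.comp continuous_snd))
      exact h1.measurableSet.compl
    exact hF.analyticSet.image_of_continuous
      (continuous_snd.comp (continuous_subtype_val.comp continuous_snd))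
  · show AnalyticSet ((Prod.snd : G × X → X) '' (Eᶜ ∩ (Prod.snd ⁻¹' closure A)))
    let _ : MeasurableSpace (G × X) := borel _
    have _ : BorelSpace (G × X) := ⟨rfl⟩
    have h1 : MeasurableSet (Eᶜ ∩ ((Prod.snd : G × X → X) ⁻¹' closure A)) :=
      hE.measurableSet.compl.inter (isClosed_closure.preimage continuous_snd).measurableSet
    exact h1.analyticSet.image_of_continuous continuous_snd

end

lemma polishSpace_cantor : PolishSpace (ℕ → Bool) := by
  let _ : MetricSpace (ℕ → Bool) := metrizableSpaceMetric _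
  have : CompleteSpace (ℕ → Bool) := inferInstance
  infer_instance

lemma isGδ_frequently_true : IsGδ {x : ℕ → Bool | ∀ n, ∃ m ≥ n, x m = true} := by
  have h1 : {x : ℕ → Bool | ∀ n, ∃ m ≥ n, x m = true}
      = ⋂ n, ⋃ m ∈ {m : ℕ | n ≤ m}, (fun x : ℕ → Bool => x m) ⁻¹' {true} := by
    ext x
    simp only [mem_iInter, mem_iUnion, mem_ofPred_eq, mem_preimage, mem_singleton_iff,
      exists_prop, ge_iff_le]
  rw [h1]
  refine IsGδ.iInter_of_isOpen fun n => isOpen_biUnion fun m _ => ?_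
  exact (isOpen_discrete _).preimage (continuous_apply m)

/-- No `G_δ` set of the Cantor space cuts out the eventually false sequences. -/
lemma not_isGδ_eventually_false :
    ¬ IsGδ {x : ℕ → Bool | ∃ n, ∀ m ≥ n, x m = false} := by
  intro hQ
  have happ : ∀ (c : Bool) (x : ℕ → Bool), Tendsto
      (fun n : ℕ => fun m => if m < n then x m else c) atTop (𝓝 x) := by
    intro c x
    rw [tendsto_pi_nhds]
    intro m
    refine tendsto_const_nhds.congr' ?_
    filter_upwards [eventually_gt_atTop m] with n hn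
    rw [if_pos hn]
  have hd1 : Dense {x : ℕ → Bool | ∃ n, ∀ m ≥ n, x m = false} := by
    intro x
    refine mem_closure_of_tendsto (happ false x) (Eventually.of_forall fun n => ?_)
    exact ⟨n, fun m hm => if_neg (not_lt.2 hm)⟩
  have hG2 : IsGδ {x : ℕ → Bool | ∀ n, ∃ m ≥ n, x m = true} := isGδ_frequently_true
  have hd2 : Dense {x : ℕ → Bool | ∀ n, ∃ m ≥ n, x m = true} := by
    intro x
    refine mem_closure_of_tendsto (happ true x) (Eventually.of_forall fun n => ?_)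
    intro k
    exact ⟨max n k, le_max_right _ _, if_neg (not_lt.2 (le_max_left _ _))⟩
  have h3 := Dense.inter_of_Gδ hQ hG2 hd1 hd2
  obtain ⟨x, ⟨n, hn⟩, hx⟩ := h3.nonempty
  obtain ⟨m, hm, hxm⟩ := hx n
  rw [hn m hm] at hxm
  exact Bool.false_ne_true hxm

/-- A `G_δ` set which contains the eventually false part of a copy of the Cantor space whose
other part misses `R` has continuum many points outside `R`. -/
lemma continuum_le_of_phi {X : Type} [TopologicalSpace X] {C R : Set X} (hC : IsGδ C)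
    {φ : (ℕ → Bool) → X} (hφ : Continuous φ) (hφi : Function.Injective φ)
    (h1 : ∀ x, (∃ n, ∀ m ≥ n, x m = false) → φ x ∈ C)
    (h2 : ∀ x, (¬ ∃ n, ∀ m ≥ n, x m = false) → φ x ∉ R) :
    Cardinal.continuum ≤ Cardinal.mk {x : X | x ∈ C ∧ x ∉ R} := by
  let U : Set (ℕ → Bool) := φ ⁻¹' C ∩ {x | ∀ n, ∃ m ≥ n, x m = true}
  have hU : IsGδ U := (hC.preimage hφ).inter isGδ_frequently_true
  have hUn : ∀ x ∈ U, ¬ ∃ n, ∀ m ≥ n, x m = false := by
    rintro x ⟨-, hx⟩ ⟨n, hn⟩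
    obtain ⟨m, hm, hxm⟩ := hx n
    rw [hn m hm] at hxm
    exact Bool.false_ne_true hxm
  have hUc : ¬ U.Countable := by
    intro hcon
    refine not_isGδ_eventually_false ?_
    have h3 : {x : ℕ → Bool | ∃ n, ∀ m ≥ n, x m = false} = φ ⁻¹' C ∩ Uᶜ := by
      ext x
      constructor
      · intro hx
        exact ⟨h1 x hx, fun hxU => hUn x hxU hx⟩
      · rintro ⟨hx, hxU⟩
        by_contra hc
        refine hxU ⟨hx, fun n => ?_⟩
        by_contra hc2
        refine hc ⟨n, fun m hm => ?_⟩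
        by_contra hc3
        exact hc2 ⟨m, hm, by simpa using hc3⟩
    rw [h3]
    exact (hC.preimage hφ).inter hcon.isGδ_compl
  have _ : PolishSpace (ℕ → Bool) := polishSpace_cantor
  have hUP : PolishSpace U := polishSpace_of_isGδ hU
  have hunc : ¬ (Set.univ : Set U).Countable := by
    rw [Set.countable_univ_iff, Set.countable_coe_iff]
    exact hUc
  obtain ⟨f, -, -, hf⟩ := isClosed_univ.exists_nat_bool_injection_of_not_countable hunc
  let F : (ℕ → Bool) → {x : X | x ∈ C ∧ x ∉ R} := fun t =>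
    ⟨φ (f t), (f t).2.1, h2 _ (hUn _ (f t).2)⟩
  have hF : Function.Injective F := by
    intro s t hst
    have h4 : φ (f s) = φ (f t) := congrArg Subtype.val hst
    exact hf (Subtype.ext (hφi h4))
  have h5 := Cardinal.mk_le_of_injective hF
  have h6 : Cardinal.mk (ℕ → Bool) = Cardinal.continuum := by simp
  rwa [h6] at h5

lemma countable_eventually_false :
    {x : ℕ → Bool | ∃ n, ∀ m ≥ n, x m = false}.Countable := by
  refine (countable_range (fun s : Finset ℕ => fun m : ℕ => decide (m ∈ s))).mono ?_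
  rintro x ⟨n, hn⟩
  refine ⟨(Finset.range n).filter fun m => x m = true, ?_⟩
  funext m
  by_cases hm : m < n
  · cases h : x m <;> simp [hm, h]
  · have h1 := hn m (not_lt.1 hm)
    simp [hm, h1]

/-- If every countable subset of `A` with compact closure lies in a `G_δ` set with fewer than
continuum many points outside `R`, then there is no copy of the Cantor space whose eventually false
part lies in `A` and whose other part misses `R`. -/
lemma no_phi_of_countable {X : Type} [TopologicalSpace X] [T2Space X] {A R : Set X}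
    (h : ∀ D : Set X, D ⊆ A → D.Countable → IsCompact (closure D) →
      ∃ C : Set X, IsGδ C ∧ D ⊆ C ∧
        Cardinal.mk {x : X | x ∈ C ∧ x ∉ R} < Cardinal.continuum)
    {φ : (ℕ → Bool) → X} (hφ : Continuous φ) (hφi : Function.Injective φ)
    (h1 : ∀ x, (∃ n, ∀ m ≥ n, x m = false) → φ x ∈ A)
    (h2 : ∀ x, (¬ ∃ n, ∀ m ≥ n, x m = false) → φ x ∉ R) : False := by
  obtain ⟨C, hC, hDC, hCR⟩ := h (φ '' {x : ℕ → Bool | ∃ n, ∀ m ≥ n, x m = false})
    (by rintro _ ⟨x, hx, rfl⟩; exact h1 x hx) (countable_eventually_false.image φ)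
    ((isCompact_range hφ).of_isClosed_subset isClosed_closure
      (closure_minimal (image_subset_range _ _) (isCompact_range hφ).isClosed))
  exact (continuum_le_of_phi hC hφ hφi (fun x hx => hDC ⟨x, hx, rfl⟩) h2).not_gt hCR

lemma mk_lt_continuum_of_subset {X : Type} {C R : Set X} (h : C ⊆ R) :
    Cardinal.mk {x : X | x ∈ C ∧ x ∉ R} < Cardinal.continuum := by
  have h1 : {x : X | x ∈ C ∧ x ∉ R} = ∅ :=
    Set.eq_empty_of_forall_notMem fun x hx => hx.2 (h hx.1)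
  rw [h1, Cardinal.mk_emptyCollection]
  exact Cardinal.continuum_pos

/-- An action on `B` which agrees with `a` on a dense subset of `A` makes all points of `B` in the
closure of `A` reachable for `a`. -/
lemma mem_dom_of_dense {G X : Type} [TopologicalSpace G] [Group G] [TopologicalSpace X]
    [T2Space X] [RegularSpace X] {A : Set X} {a : G → A → A} (ha : IsContAction A a)
    {D B : Set X} {b : G → B → B} (hDA : D ⊆ A) (hAD : A ⊆ closure D) (hDB : D ⊆ B)
    (hb : IsContAction B b)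
    (hab : ∀ (g : G) (x : B) (hx : (x : X) ∈ D),
      ((b g x : B) : X) = ((a g ⟨(x : X), hDA hx⟩ : A) : X))
    {x : X} (hxB : x ∈ B) (hxA : x ∈ closure A) : x ∈ dom a := by
  have key : ∀ (g : G) (x : B), Lim a g (x : X) ((b g x : B) : X) := by
    intro g x W hW
    obtain ⟨W', hW', hW'c, hW'W⟩ := exists_mem_nhds_isClosed_subset hW
    have h1 : (fun p : G × B => ((b p.1 p.2 : B) : X)) ⁻¹' W' ∈ 𝓝 (g, x) :=
      ((continuous_subtype_val.comp hb.1).continuousAt (x := (g, x))).preimage_mem_nhds hW'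
    rw [nhds_prod_eq, mem_prod_iff] at h1
    obtain ⟨U, hU, T, hT, hUT⟩ := h1
    rw [nhds_subtype_eq_comap] at hT
    obtain ⟨V, hV, hVT⟩ := hT
    obtain ⟨V₀, hV₀V, hV₀o, hxV₀⟩ := mem_nhds_iff.1 hV
    refine ⟨U, hU, V₀, hV₀o.mem_nhds hxV₀, fun h hh z hz => ?_⟩
    refine hW'W ?_
    by_contra hcon
    have hcont : Continuous (fun z : A => ((a h z : A) : X)) :=
      continuous_subtype_val.comp (ha.1.comp (continuous_const.prodMk continuous_id))
    have h2 : (fun z : A => ((a h z : A) : X)) ⁻¹' W'ᶜ ∈ 𝓝 z :=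
      hcont.continuousAt.preimage_mem_nhds (hW'c.isOpen_compl.mem_nhds hcon)
    rw [nhds_subtype_eq_comap] at h2
    obtain ⟨V', hV', hV'2⟩ := h2
    obtain ⟨z', hz', hz'D⟩ :=
      mem_closure_iff_nhds.1 (hAD z.2) _ (inter_mem (hV₀o.mem_nhds hz) hV')
    have h3 : ((a h ⟨z', hDA hz'D⟩ : A) : X) ∈ W'ᶜ :=
      hV'2 (show ((⟨z', hDA hz'D⟩ : A) : X) ∈ V' from hz'.2)
    have h4 : ((b h ⟨z', hDB hz'D⟩ : B) : X) ∈ W' :=
      hUT (show (h, (⟨z', hDB hz'D⟩ : B)) ∈ U ×ˢ T from ⟨hh, hVT (hV₀V hz'.1)⟩)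
    rw [hab h ⟨z', hDB hz'D⟩ hz'D] at h4
    exact h3 h4
  rw [mem_dom_iff ha]
  exact ⟨hxA, fun g => ⟨_, key g ⟨x, hxB⟩, fun h => ⟨_, key h (b g ⟨x, hxB⟩)⟩⟩⟩

/-- From the orbits of countable sets to `G_δ` sets of reachable points. -/
lemma exists_reachable_of_orbits {G X : Type} [TopologicalSpace G] [Group G]
    [TopologicalSpace X] [PolishSpace X] {A : Set X} {a : G → A → A} (ha : IsContAction A a)
    (h : ∀ (D : Set X) (hD : D ⊆ A), D.Countable →
      ∃ (B : Set X) (b : G → B → B), IsGδ B ∧ D ⊆ B ∧ IsContAction B b ∧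
        ∀ (g : G) (x : B) (hx : (x : X) ∈ D),
          ((b g x : B) : X) = ((a g ⟨(x : X), hD hx⟩ : A) : X))
    (D : Set X) (hDc : D.Countable) (hDA : D ⊆ A) :
    ∃ C : Set X, IsGδ C ∧ D ⊆ C ∧
      C ⊆ {x | ∃ (B : Set X) (b : G → B → B), IsExtension A a B b ∧ x ∈ B} := by
  obtain ⟨D₁, hD₁c, hD₁⟩ := exists_countable_dense A
  have hDA' : D ∪ Subtype.val '' D₁ ⊆ A := by
    rintro x (hx | ⟨y, -, rfl⟩)
    · exact hDA hx
    · exact y.2
  have hAD : A ⊆ closure (D ∪ Subtype.val '' D₁) := by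
    intro x hx
    have h1 : (⟨x, hx⟩ : A) ∈ closure D₁ := hD₁ _
    have h2 : x ∈ closure (Subtype.val '' D₁) :=
      image_closure_subset_closure_image continuous_subtype_val ⟨⟨x, hx⟩, h1, rfl⟩
    exact closure_mono subset_union_right h2
  obtain ⟨B, b, hB, hDB, hb, hab⟩ := h _ hDA' (hDc.union (hD₁c.image _))
  refine ⟨B ∩ closure A, hB.inter isClosed_closure.isGδ,
    subset_inter (subset_union_left.trans hDB) (hDA.trans subset_closure), ?_⟩
  rintro x ⟨hxB, hxA⟩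
  exact (mem_dom_of_dense ha hDA' hAD hDB hb hab hxB hxA).2

theorem dichotomy (G X : Type) [TopologicalSpace G] [Group G] [IsTopologicalGroup G]
    [PolishSpace G] [TopologicalSpace X] [PolishSpace X] (A : Set X) (a : G → A → A)
    (ha : IsContAction A a) :
    (∃ (B : Set X) (b : G → B → B), IsExtension A a B b ∧ IsGδ B) ↔
      ¬ ∃ φ : (ℕ → Bool) → X, Continuous φ ∧ Function.Injective φ ∧
        (∀ x, (∃ n, ∀ m ≥ n, x m = false) → φ x ∈ A) ∧
        (∀ x, (¬ ∃ n, ∀ m ≥ n, x m = false) →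
          ¬ ∃ (B : Set X) (b : G → B → B), IsExtension A a B b ∧ φ x ∈ B) := by
  constructor
  · rintro ⟨B, b, hb, hB⟩ ⟨φ, hφ, -, h1, h2⟩
    refine not_isGδ_eventually_false ?_
    have h3 : {x : ℕ → Bool | ∃ n, ∀ m ≥ n, x m = false} = φ ⁻¹' B := by
      ext x
      constructor
      · intro hx
        exact hb.1 (h1 x hx)
      · intro hx
        by_contra hcon
        exact h2 x hcon ⟨B, b, hb, hx⟩
    rw [h3]
    exact hB.preimage hφ
  · intro hno
    by_contra hcon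
    have hAN : Disjoint A (closure A \ dom a) := by
      rw [Set.disjoint_left]
      rintro x hxA ⟨-, hx⟩
      exact hx ⟨subset_closure hxA, A, a, isExtension_self ha, hxA⟩
    obtain ⟨φ, hφ, hφi, h1, h2⟩ := hurewicz (analytic_compl ha) hAN (by
      rintro ⟨C, hC, hAC, hCd⟩
      refine hcon (criterion G X A a ha (C ∩ closure A) (hC.inter isClosed_closure.isGδ)
        (subset_inter hAC subset_closure) ?_)
      rintro x ⟨hxC, hxc⟩
      by_contra hx
      exact Set.disjoint_left.1 hCd hxC ⟨hxc, fun hxd => hx hxd.2⟩)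
    refine hno ⟨φ, hφ, hφi, h1, fun x hx hB => ?_⟩
    exact (h2 x hx).2 ⟨(h2 x hx).1, hB⟩

end Pool.Agent.W_908db9_h43
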