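import Pool.Agent.W_908db9_h43.Rel
import Pool.Agent.W_908db9_h43.Core

/-!
MP_908db9_lc: lower semicontinuous functions which are uniformly continuous along the action.
-/

open Topology Filter Set TopologicalSpace Pointwise

namespace Pool.Agent.W_908db9_h43

/-- The good function of a first countable group. -/
lemma exists_good_fc (G : Type) [TopologicalSpace G] [Group G] [IsTopologicalGroup G]
    [FirstCountableTopology G] : ∃ f : G → unitInterval, Good f := by
  let _ : UniformSpace G := IsTopologicalGroup.rightUniformSpace G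
  have hcg : (uniformity G).IsCountablyGenerated := by
    rw [uniformity_eq_comap_nhds_one' G]
    infer_instance
  let _ : PseudoMetricSpace G := UniformSpace.pseudoMetricSpace G
  refine ⟨fun x => ⟨min 1 (dist x 1), by positivity, min_le_left _ _⟩, ?_, ?_⟩
  · intro ε hε
    have h1 : {p : G × G | dist p.1 p.2 < ε} ∈ uniformity G := Metric.dist_mem_uniformity hε
    rw [uniformity_eq_comap_nhds_one' G] at h1
    obtain ⟨U, hU, hUV⟩ := h1
    refine ⟨U, hU, fun x u hu => ?_⟩
    have h2 : dist x (u * x) < ε := by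
      have : ((x, u * x) : G × G) ∈ {p : G × G | dist p.1 p.2 < ε} := by
        apply hUV
        show u * x * x⁻¹ ∈ U
        simpa using hu
      exact this
    rw [Subtype.dist_eq, Real.dist_eq]
    have h3 : |min 1 (dist (u * x) 1) - min 1 (dist x 1)| ≤ |dist (u * x) 1 - dist x 1| := by
      have := abs_min_sub_min_le_max (1 : ℝ) (dist (u * x) 1) 1 (dist x 1)
      simpa using this
    have h4 : |dist (u * x) 1 - dist x 1| ≤ dist (u * x) x := abs_dist_sub_le _ _ _
    rw [dist_comm] at h2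
    show |min 1 (dist (u * x) 1) - min 1 (dist x 1)| ≤ ε
    linarith
  · intro V hV
    obtain ⟨ε, hε, hεV⟩ := Metric.mem_nhds_iff.1 hV
    refine ⟨min ε 1, by positivity, fun x hx => hεV ?_⟩
    rw [Subtype.dist_eq, Real.dist_eq] at hx
    have h1 : |min 1 (dist x 1) - min 1 (dist (1 : G) 1)| < min ε 1 := hx
    rw [dist_self, min_eq_right (zero_le_one), sub_zero, abs_of_nonneg (by positivity)] at h1
    rw [Metric.mem_ball]
    rcases le_total 1 (dist x 1) with h | h
    · rw [min_eq_left h] at h1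
      exact absurd h1 (not_lt.2 (min_le_right _ _))
    · rw [min_eq_right h] at h1
      exact h1.trans_le (min_le_left _ _)

variable {G A : Type} [TopologicalSpace G] [Group G] [IsTopologicalGroup G]
  [TopologicalSpace A] [MulAction G A] [ContinuousSMul G A]

/-- Lower semicontinuous and uniformly continuous along the action. -/
structure IsFun (G : Type) {A : Type} [TopologicalSpace G] [Group G] [TopologicalSpace A]
    [MulAction G A] (F : A → ℝ) : Prop where
  lsc : ∀ r : ℝ, IsOpen {x | r < F x}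
  pu : ∀ ε > 0, ∃ U ∈ 𝓝 (1 : G), ∀ h ∈ U, ∀ x : A, |F (h • x) - F x| ≤ ε

omit [IsTopologicalGroup G] in
lemma exists_isFun {f : G → unitInterval} (hf : Good f) [IsTopologicalGroup G]
    (a : A) (W : Set A) (hW : IsOpen W) (ha : a ∈ W) :
    ∃ F : A → ℝ, IsFun G F ∧ 0 < F a ∧ {x | 0 < F x} ⊆ W := by
  classical
  have h1 : (fun p : G × A => p.1 • p.2) ⁻¹' W ∈ 𝓝 ((1 : G), a) :=
    (continuous_smul.continuousAt (x := ((1 : G), a))).preimage_mem_nhds
      (hW.mem_nhds (by simpa using ha))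
  rw [nhds_prod_eq, mem_prod_iff] at h1
  obtain ⟨V, hV, T, hT, hVT⟩ := h1
  obtain ⟨O, hOT, hO, haO⟩ := mem_nhds_iff.1 hT
  obtain ⟨δ, hδ, hs⟩ := hf.sep V hV
  let φ : G → ℝ := fun g => max 0 (δ - dist (f g⁻¹) (f 1))
  have hφ0 : ∀ g, 0 ≤ φ g := fun g => le_max_left _ _
  have hφδ : ∀ g, φ g ≤ δ := fun g => max_le hδ.le (by linarith [dist_nonneg (x := f g⁻¹) (y := f 1)])
  let t : A → G → ℝ := fun x g => if g • x ∈ O then φ g else 0
  have ht0 : ∀ x g, 0 ≤ t x g := fun x g => by
    show 0 ≤ if g • x ∈ O then φ g else 0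
    split_ifs
    · exact hφ0 g
    · exact le_rfl
  have hbdd : ∀ x, BddAbove (range (t x)) := fun x => by
    refine ⟨δ, ?_⟩
    rintro _ ⟨g, rfl⟩
    show (if g • x ∈ O then φ g else 0) ≤ δ
    split_ifs
    · exact hφδ g
    · exact hδ.le
  have hlt : ∀ x r, r < ⨆ g, t x g ↔ ∃ g, r < t x g := fun x r => lt_ciSup_iff (hbdd x)
  refine ⟨fun x => ⨆ g, t x g, ⟨?_, ?_⟩, ?_, ?_⟩
  · intro r
    have h2 : {x | r < ⨆ g, t x g} = ⋃ g, {x | r < t x g} := by
      ext x
      rw [mem_ofPred_eq, hlt, mem_iUnion]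
      rfl
    rw [h2]
    refine isOpen_iUnion fun g => ?_
    by_cases hr : r < 0
    · have : {x | r < t x g} = Set.univ := eq_univ_of_forall fun x => hr.trans_le (ht0 x g)
      rw [this]; exact isOpen_univ
    · by_cases hg : r < φ g
      · have : {x | r < t x g} = (fun x => g • x) ⁻¹' O := by
          ext x
          show (r < if g • x ∈ O then φ g else 0) ↔ g • x ∈ O
          by_cases hx : g • x ∈ O
          · rw [if_pos hx]; exact iff_of_true hg hx
          · rw [if_neg hx]; exact iff_of_false hr hx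
        rw [this]
        exact hO.preimage (continuous_const_smul g)
      · have : {x | r < t x g} = ∅ := by
          refine eq_empty_of_forall_notMem fun x hx => ?_
          have hx' : r < if g • x ∈ O then φ g else 0 := hx
          split_ifs at hx'
          · exact hg hx'
          · exact hr hx'
        rw [this]; exact isOpen_empty
  · intro ε hε
    obtain ⟨U, hU, hUf⟩ := hf.unif ε hε
    have key : ∀ h : G, h⁻¹ ∈ U → ∀ x : A, (⨆ g, t (h • x) g) ≤ (⨆ g, t x g) + ε := by
      intro h hh x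
      refine ciSup_le fun g => ?_
      show (if g • h • x ∈ O then φ g else 0) ≤ _
      split_ifs with hg
      · have h2 : t x (g * h) = φ (g * h) := by
          show (if (g * h) • x ∈ O then φ (g * h) else 0) = φ (g * h)
          rw [mul_smul, if_pos hg]
        have h3 : φ (g * h) ≤ ⨆ g, t x g := by
          rw [← h2]; exact le_ciSup (hbdd x) (g * h)
        have h4 : dist (f (h⁻¹ * g⁻¹)) (f g⁻¹) ≤ ε := hUf g⁻¹ h⁻¹ hh
        have h5 : φ g ≤ φ (g * h) + ε := by
          show max 0 (δ - dist (f g⁻¹) (f 1)) ≤ max 0 (δ - dist (f (g * h)⁻¹) (f 1)) + ε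
          rw [mul_inv_rev]
          have h6 : dist (f (h⁻¹ * g⁻¹)) (f 1) ≤ ε + dist (f g⁻¹) (f 1) :=
            (dist_triangle _ (f g⁻¹) _).trans (add_le_add h4 le_rfl)
          refine max_le ?_ ?_
          · have := le_max_left 0 (δ - dist (f (h⁻¹ * g⁻¹)) (f 1))
            linarith
          · have := le_max_right 0 (δ - dist (f (h⁻¹ * g⁻¹)) (f 1))
            linarith
        linarith
      · have h3 : 0 ≤ ⨆ g, t x g := (ht0 x 1).trans (le_ciSup (hbdd x) 1)
        linarith
    have hUi : U⁻¹ ∈ 𝓝 (1 : G) := inv_mem_nhds_one G hU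
    refine ⟨U ∩ U⁻¹, inter_mem hU hUi, fun h hh x => ?_⟩
    have h2 := key h hh.2 x
    have h3 := key h⁻¹ (by rw [inv_inv]; exact hh.1) (h • x)
    rw [inv_smul_smul] at h3
    show |(⨆ g, t (h • x) g) - ⨆ g, t x g| ≤ ε
    rw [abs_le]
    constructor <;> linarith
  · rw [hlt]
    refine ⟨1, ?_⟩
    show (0 : ℝ) < if (1 : G) • a ∈ O then φ 1 else 0
    rw [one_smul, if_pos haO]
    show 0 < max 0 (δ - dist (f 1⁻¹) (f 1))
    rw [inv_one, dist_self, sub_zero]
    exact lt_max_of_lt_right hδ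
  · intro x hx
    obtain ⟨g, hg⟩ := (hlt x 0).1 hx
    have hg' : (0 : ℝ) < if g • x ∈ O then φ g else 0 := hg
    split_ifs at hg' with h2
    · have h3 : (0 : ℝ) < max 0 (δ - dist (f g⁻¹) (f 1)) := hg'
      have h4 : dist (f g⁻¹) (f 1) < δ := by
        rcases lt_max_iff.1 h3 with h | h
        · exact absurd h (lt_irrefl 0)
        · linarith
      have h5 : (g⁻¹, g • x) ∈ V ×ˢ T := ⟨hs _ h4, hOT h2⟩
      have h6 : g⁻¹ • g • x ∈ W := hVT h5
      rwa [inv_smul_smul] at h6
    · exact absurd hg' (lt_irrefl 0)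

/-- The relation defined by a family of functions. -/
def relF {ι : Type} (G : Type) {A : Type} [Group G] [MulAction G A] (F : ι → A → ℝ)
    (O' O : Set A) : Prop :=
  ∃ (n : ι) (g : G) (r r' : ℝ), r < r' ∧ O' ⊆ {x | r' < F n (g • x)} ∧
    {x | r < F n (g • x)} ⊆ O

lemma isRel_relF [SeparableSpace G] [RegularSpace A] {ι : Type} [Countable ι]
    {F : ι → A → ℝ} (hF : ∀ n, IsFun G (F n))
    (hb : ∀ a : A, ∀ W, IsOpen W → a ∈ W → ∃ n, 0 < F n a ∧ {x | 0 < F n x} ⊆ W) :
    ∃ ℬ : Set (Set A), IsRel G ℬ (relF G F) := by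
  obtain ⟨D, hDc, hDd⟩ := exists_countable_dense G
  have _ : Countable D := hDc.to_subtype
  let b : ι × D × ℚ → Set A := fun q => {x | (q.2.2 : ℝ) < F q.1 ((q.2.1 : G) • x)}
  refine ⟨range b, ⟨countable_range b, ?_, ?_, ?_, ?_, ?_, ?_, ?_⟩⟩
  · rintro _ ⟨q, rfl⟩
    exact ((hF q.1).lsc q.2.2).preimage (continuous_const_smul (q.2.1 : G))
  · rintro O' O ⟨n, g, r, r', hr, h1, h2⟩ x hx
    exact h2 (hr.trans (h1 hx))
  · rintro O₁ O₂ O₃ O₄ h12 ⟨n, g, r, r', hr, h1, h2⟩ h34
    exact ⟨n, g, r, r', hr, h12.trans h1, h2.trans h34⟩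
  · rintro O' O ⟨n, g, r, r', hr, h1, h2⟩
    let ε : ℝ := (r' - r) / 4
    have hε : 0 < ε := by
      show 0 < (r' - r) / 4
      linarith
    obtain ⟨U, hU, hUF⟩ := (hF n).pu ε hε
    obtain ⟨U', hU'U, hU'o, h1U'⟩ := mem_nhds_iff.1 hU
    have hop : IsOpen ((fun d => d * g⁻¹) ⁻¹' U') := hU'o.preimage (continuous_mul_const g⁻¹)
    obtain ⟨d, hd, hdU⟩ := hDd.exists_mem_open hop ⟨g, by
      show g * g⁻¹ ∈ U'
      rw [mul_inv_cancel]; exact h1U'⟩
    have hdg : ∀ x : A, |F n (d • x) - F n (g • x)| ≤ ε := fun x => by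
      have := hUF (d * g⁻¹) (hU'U hdU) (g • x)
      rwa [← mul_smul, inv_mul_cancel_right] at this
    obtain ⟨q, hq1, hq2⟩ := exists_rat_btwn (show r + ε < r' - ε by
      show r + (r' - r) / 4 < r' - (r' - r) / 4
      linarith)
    refine ⟨b (n, ⟨d, hd⟩, q), ⟨_, rfl⟩, ⟨n, g, q + ε, r', by linarith, h1, ?_⟩,
      ⟨n, g, r, q - ε, by linarith, ?_, h2⟩⟩
    · intro x hx
      have hx' : (q : ℝ) + ε < F n (g • x) := hx
      show (q : ℝ) < F n (d • x)
      have := (abs_le.1 (hdg x)).1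
      linarith
    · intro x hx
      have hx' : (q : ℝ) < F n (d • x) := hx
      show (q : ℝ) - ε < F n (g • x)
      have := (abs_le.1 (hdg x)).2
      linarith
  · intro a W hW ha
    obtain ⟨K, hK, hKc, hKW⟩ := exists_mem_nhds_isClosed_subset (hW.mem_nhds ha)
    obtain ⟨T, hTK, hTo, haT⟩ := mem_nhds_iff.1 hK
    obtain ⟨n, hn, hnT⟩ := hb a T hTo haT
    refine ⟨{x | F n a / 2 < F n x}, (hF n).lsc _, ?_, ⟨n, 1, 0, F n a / 2, by linarith, ?_, ?_⟩,
      ?_⟩
    · show F n a / 2 < F n a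
      linarith
    · intro x hx
      rw [mem_ofPred_eq, one_smul]; exact hx
    · intro x hx
      rw [mem_ofPred_eq, one_smul] at hx
      exact hKW (hTK (hnT hx))
    · refine (closure_minimal ?_ hKc).trans hKW
      intro x hx
      have hx' : F n a / 2 < F n x := hx
      exact hTK (hnT (by show 0 < F n x; linarith))
  · rintro O' O h ⟨n, g, r, r', hr, h1, h2⟩
    refine ⟨n, g * h⁻¹, r, r', hr, ?_, ?_⟩
    · intro x hx
      have hx' := h1 (Set.mem_smul_set_iff_inv_smul_mem.1 hx)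
      show r' < F n ((g * h⁻¹) • x)
      rw [mul_smul]; exact hx'
    · intro x hx
      have hx' : r < F n ((g * h⁻¹) • x) := hx
      rw [mul_smul] at hx'
      exact Set.mem_smul_set_iff_inv_smul_mem.2 (h2 hx')
  · rintro O' O ⟨n, g, r, r', hr, h1, h2⟩
    obtain ⟨U, hU, hUF⟩ := (hF n).pu ((r' - r) / 2) (by linarith)
    refine ⟨(fun u => g * u * g⁻¹) ⁻¹' U, ?_, ?_⟩
    · have h3 : Tendsto (fun u : G => g * u * g⁻¹) (𝓝 1) (𝓝 (g * 1 * g⁻¹)) :=
        ((continuous_const.mul continuous_id).mul continuous_const).tendsto _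
      rw [mul_one, mul_inv_cancel] at h3
      exact h3 hU
    · rintro u hu _ ⟨y, hy, rfl⟩
      refine h2 ?_
      have hy' : r' < F n (g • y) := h1 hy
      have h3 := (abs_le.1 (hUF _ hu (g • y))).1
      rw [← mul_smul, inv_mul_cancel_right, mul_smul] at h3
      show r < F n (g • u • y)
      linarith

theorem polish_extension_all (G A : Type) [TopologicalSpace G] [Group G]
    [IsTopologicalGroup G] [SeparableSpace G] [FirstCountableTopology G]
    [TopologicalSpace A] [T3Space A]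
    [SecondCountableTopology A] [MulAction G A] [ContinuousSMul G A] :
    ∃ (P : Type) (_ : TopologicalSpace P) (_ : MulAction G P) (e : A → P),
      PolishSpace P ∧ ContinuousSMul G P ∧ IsEmbedding e ∧ DenseRange e ∧
        ∀ (g : G) (x : A), e (g • x) = g • e x := by
  classical
  obtain ⟨f, hf⟩ := exists_good_fc G
  let b := countableBasis A
  have hbc : b.Countable := countable_countableBasis A
  have hb : IsTopologicalBasis b := isBasis_countableBasis A
  let Q : Set A × Set A → (A → ℝ) → Prop := fun p F =>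
    IsFun G F ∧ p.1 ⊆ {x | 0 < F x} ∧ {x | 0 < F x} ⊆ p.2
  let I : Set (Set A × Set A) := {p | p ∈ b ×ˢ b ∧ ∃ F, Q p F}
  have hIc : I.Countable := (hbc.prod hbc).mono fun p hp => hp.1
  have _ : Countable I := hIc.to_subtype
  choose F hF using fun p : I => p.2.2
  obtain ⟨ℬ, hR⟩ := isRel_relF (G := G) (F := F) (fun p => (hF p).1) (by
    intro a W hW ha
    obtain ⟨B₂, hB₂, haB₂, hB₂W⟩ := hb.exists_subset_of_mem_open ha hW
    obtain ⟨E, hE, haE, hEB⟩ := exists_isFun hf a B₂ (hb.isOpen hB₂) haB₂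
    obtain ⟨B₁, hB₁, haB₁, hB₁E⟩ := hb.exists_subset_of_mem_open
      (show a ∈ {x | 0 < E x} from haE) (hE.lsc 0)
    have hp : (B₁, B₂) ∈ I := ⟨⟨hB₁, hB₂⟩, E, hE, hB₁E, hEB⟩
    have h1 := hF ⟨_, hp⟩
    exact ⟨⟨_, hp⟩, h1.2.1 haB₁, h1.2.2.trans hB₂W⟩)
  exact extension_of_rel hR

end Pool.Agent.W_908db9_h43
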