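import Pool.Agent.W_908db9_h43.Core

/-!
MP_908db9_lc: open subgroups of infinite index in non-archimedean Polish groups.
-/

open Topology Filter Set TopologicalSpace

namespace Pool.Agent.W_908db9_h43

/-- A Polish group which has a basis of open subgroups, all of finite index, is compact. -/
lemma compactSpace_of_finiteIndex (W : Type) [TopologicalSpace W] [Group W]
    [IsTopologicalGroup W] [PolishSpace W]
    (hna : ∀ U ∈ 𝓝 (1 : W), ∃ V : OpenSubgroup W, (V : Set W) ⊆ U)
    (hfin : ∀ V : OpenSubgroup W, (V : Subgroup W).FiniteIndex) : CompactSpace W := by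
  obtain ⟨B, hB⟩ := (𝓝 (1 : W)).exists_antitone_basis
  choose V hV using fun n => hna (B n) (hB.toHasBasis.mem_of_mem trivial)
  have hfq : ∀ n, Finite (W ⧸ (V n : Subgroup W)) := fun n => by
    have := hfin (V n)
    exact Subgroup.finite_quotient_of_finiteIndex
  let _ : ∀ n, TopologicalSpace (Equiv.Perm (W ⧸ (V n : Subgroup W))) := fun _ => ⊥
  have _ : ∀ n, DiscreteTopology (Equiv.Perm (W ⧸ (V n : Subgroup W))) := fun _ => ⟨rfl⟩
  let K := ∀ n, Equiv.Perm (W ⧸ (V n : Subgroup W))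
  let φ : W →* K := MonoidHom.pi fun n => MulAction.toPermHom W (W ⧸ (V n : Subgroup W))
  have hφa : ∀ (w : W) (n : ℕ) (q : W ⧸ (V n : Subgroup W)), φ w n q = w • q := fun w n q => rfl
  have hφc : Continuous φ := by
    refine continuous_pi fun n => ?_
    rw [continuous_discrete_rng]
    intro σ
    have h1 : (fun w : W => φ w n) ⁻¹' {σ} = ⋂ q, {w : W | w • q = σ q} := by
      ext w
      simp only [mem_preimage, mem_singleton_iff, mem_iInter, mem_ofPred_eq]
      constructor
      · intro h q; rw [← hφa, h]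
      · intro h; exact Equiv.ext fun q => by rw [hφa, h]
    rw [h1]
    refine isOpen_iInter_of_finite fun q => ?_
    obtain ⟨x, rfl⟩ := QuotientGroup.mk_surjective q
    obtain ⟨y, hy⟩ := QuotientGroup.mk_surjective (σ (x : W ⧸ (V n : Subgroup W)))
    have h2 : {w : W | w • (x : W ⧸ (V n : Subgroup W)) = σ x}
        = (fun w : W => (w * x)⁻¹ * y) ⁻¹' (V n : Set W) := by
      ext w
      rw [mem_ofPred_eq, ← hy]
      exact QuotientGroup.eq
    rw [h2]
    exact (V n).isOpen.preimage (by fun_prop)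
  have key : ∀ g : W, ∀ U ∈ 𝓝 g, ∃ T ∈ 𝓝 (φ g), φ ⁻¹' T ⊆ U := by
    intro g U hU
    have hU' : (fun x => g * x) ⁻¹' U ∈ 𝓝 (1 : W) := by
      have : Tendsto (fun x => g * x) (𝓝 (1 : W)) (𝓝 (g * 1)) :=
        (continuous_const_mul g).tendsto _
      rw [mul_one] at this
      exact this hU
    obtain ⟨n, -, hn⟩ := hB.toHasBasis.mem_iff.1 hU'
    refine ⟨{k | k n = φ g n}, ?_, ?_⟩
    · have hop : IsOpen {k : K | k n = φ g n} := by
        have : {k : K | k n = φ g n} = (fun k : K => k n) ⁻¹' {φ g n} := rfl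
        rw [this]
        exact (isOpen_discrete _).preimage (continuous_apply n)
      exact hop.mem_nhds rfl
    · intro g' hg'
      have h1 : φ g' n = φ g n := hg'
      have h2 : g' • ((1 : W) : W ⧸ (V n : Subgroup W)) = g • ((1 : W) : W ⧸ (V n : Subgroup W)) := by
        rw [← hφa, h1, hφa]
      have h3 : (g * 1)⁻¹ * (g' * 1) ∈ (V n : Subgroup W) := QuotientGroup.eq.1 h2.symm
      rw [mul_one, mul_one] at h3
      have h4 := hn (hV n h3)
      simpa using h4
  have hemb : IsEmbedding φ := by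
    refine ⟨isInducing_iff_nhds.2 fun g => le_antisymm ?_ ?_, ?_⟩
    · exact (hφc.tendsto g).le_comap
    · intro U hU
      obtain ⟨T, hT, hTU⟩ := key g U hU
      exact ⟨T, hT, hTU⟩
    · intro g g' hgg
      by_contra hne
      obtain ⟨U, U', hU, hU', hg, hg', hd⟩ := t2_separation hne
      obtain ⟨T, hT, hTU⟩ := key g U (hU.mem_nhds hg)
      have : g' ∈ U := hTU (by
        show φ g' ∈ T
        rw [← hgg]; exact mem_of_mem_nhds hT)
      exact Set.disjoint_left.1 hd this hg'
  let H : Subgroup K := φ.range.topologicalClosure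
  have hHc : IsClosed (H : Set K) := Subgroup.isClosed_topologicalClosure _
  have _ : CompactSpace H := isCompact_iff_compactSpace.mp hHc.isCompact
  have hmem : ∀ w, φ w ∈ (H : Set K) := fun w => Subgroup.le_topologicalClosure _ ⟨w, rfl⟩
  let e : W → H := fun w => ⟨φ w, hmem w⟩
  have hemul : ∀ a b, e (a * b) = e a * e b := fun a b => Subtype.ext (map_mul φ a b)
  have heinv : ∀ a, e a⁻¹ = (e a)⁻¹ := fun a => Subtype.ext (map_inv φ a)
  have he : IsEmbedding e := hemb.codRestrict (H : Set K) hmem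
  have hed : DenseRange e := by
    intro z
    have hz : z.1 ∈ closure (φ.range : Set K) := z.2
    rw [mem_closure_iff_nhds] at hz ⊢
    intro t ht
    have ht' : t ∈ comap (fun w : H => w.1) (𝓝 z.1) := by
      rw [← nhds_induced]; exact ht
    obtain ⟨s, hs, hst⟩ := ht'
    obtain ⟨_, hws, g, rfl⟩ := hz s hs
    exact ⟨e g, hst hws, g, rfl⟩
  have hG : IsGδ (range e) := isGδ_range_of_isEmbedding he hed
  have hsurj : Function.Surjective e := by
    intro c
    have h1 : IsGδ ((fun x : H => c⁻¹ * x) ⁻¹' range e) := hG.preimage (continuous_const_mul c⁻¹)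
    have h2 : Dense ((fun x : H => c⁻¹ * x) ⁻¹' range e) :=
      Dense.preimage hed (isOpenMap_mul_left c⁻¹)
    have h3 := Dense.inter_of_Gδ hG h1 hed h2
    have _ : Nonempty H := ⟨1⟩
    obtain ⟨x, ⟨b, hb⟩, ⟨a, ha⟩⟩ := h3.nonempty
    refine ⟨b * a⁻¹, ?_⟩
    have ha' : e a = c⁻¹ * x := ha
    rw [hemul, heinv, hb, ha']
    group
  exact (he.toHomeomorphOfSurjective hsurj).symm.compactSpace

lemma step (G : Type) [TopologicalSpace G] [Group G] [IsTopologicalGroup G] [PolishSpace G]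
    (hna : ∀ U ∈ 𝓝 (1 : G), ∃ V : OpenSubgroup G, (V : Set G) ⊆ U)
    (hG : ¬ LocallyCompactSpace G) (U : OpenSubgroup G) (B : Set G) (hB : B ∈ 𝓝 (1 : G)) :
    ∃ U' : OpenSubgroup G, U' ≤ U ∧ (U' : Set G) ⊆ B ∧
      ∀ s : Set G, s.Finite → ∃ u ∈ U, ∀ x ∈ s, x⁻¹ * u ∉ U' := by
  have hP : PolishSpace (U : Subgroup G) := U.isClosed.polishSpace
  have hnc : ¬ CompactSpace (U : Subgroup G) := by
    intro h
    have h1 : IsCompact (U : Set G) := isCompact_iff_compactSpace.2 h
    exact hG (h1.locallyCompactSpace_of_mem_nhds_of_group U.mem_nhds_one)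
  have hna' : ∀ T ∈ 𝓝 (1 : (U : Subgroup G)), ∃ V : OpenSubgroup (U : Subgroup G),
      (V : Set (U : Subgroup G)) ⊆ T := by
    intro T hT
    have hT' : T ∈ comap (fun w : (U : Subgroup G) => w.1) (𝓝 (1 : G)) := by
      have : 𝓝 (1 : (U : Subgroup G)) = comap (fun w : (U : Subgroup G) => w.1) (𝓝 (1 : G)) :=
        nhds_induced _ _
      rw [← this]; exact hT
    obtain ⟨s, hs, hst⟩ := hT'
    obtain ⟨V, hV⟩ := hna s hs
    refine ⟨V.comap (U : Subgroup G).subtype continuous_subtype_val, ?_⟩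
    intro w hw
    exact hst (hV hw)
  have hex : ∃ V : OpenSubgroup (U : Subgroup G),
      ¬ (V : Subgroup (U : Subgroup G)).FiniteIndex := by
    by_contra h
    push Not at h
    exact hnc (compactSpace_of_finiteIndex (U : Subgroup G) hna' h)
  obtain ⟨V, hV⟩ := hex
  obtain ⟨W, hW⟩ := hna B hB
  let V' : OpenSubgroup G :=
    ⟨(V : Subgroup (U : Subgroup G)).map (U : Subgroup G).subtype,
      (U.isOpen.isOpenMap_subtype_val) _ V.isOpen⟩
  refine ⟨V' ⊓ W, ?_, ?_, ?_⟩
  · rintro x ⟨⟨v, -, rfl⟩, -⟩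
    exact v.2
  · intro x hx
    exact hW hx.2
  · intro s hs
    by_contra hcon
    push Not at hcon
    apply hV
    have hfin : Finite ((U : Subgroup G) ⧸ (V : Subgroup (U : Subgroup G))) := by
      choose! x hxs hx using hcon
      have _ : Finite s := hs.to_subtype
      refine Finite.of_injective
        (fun q : (U : Subgroup G) ⧸ (V : Subgroup (U : Subgroup G)) =>
          (⟨x (q.out : (U : Subgroup G)), hxs _ q.out.2⟩ : s)) ?_
      intro q q' h
      have h0 : x (q.out : (U : Subgroup G)) = x (q'.out : (U : Subgroup G)) :=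
        congrArg Subtype.val h
      have h1 := (hx (q.out : (U : Subgroup G)) q.out.2).1
      have h2 := (hx (q'.out : (U : Subgroup G)) q'.out.2).1
      rw [← h0] at h2
      obtain ⟨v, hv, hve⟩ := h1
      obtain ⟨v', hv', hve'⟩ := h2
      rw [← q.out_eq, ← q'.out_eq]
      have h3 : (q.out)⁻¹ * q'.out = v⁻¹ * v' := by
        apply Subtype.ext
        have hve1 : (v : G) = (x (q.out : (U : Subgroup G)))⁻¹ * (q.out : (U : Subgroup G)) := hve
        have hve2 : (v' : G) = (x (q.out : (U : Subgroup G)))⁻¹ * (q'.out : (U : Subgroup G)) :=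
          hve'
        show ((q.out : (U : Subgroup G)) : G)⁻¹ * ((q'.out : (U : Subgroup G)) : G)
          = (v : G)⁻¹ * (v' : G)
        rw [hve1, hve2]
        group
      refine QuotientGroup.eq.2 ?_
      rw [h3]
      exact mul_mem (inv_mem hv) hv'
    exact Subgroup.finiteIndex_of_finite_quotient

lemma exists_seq (G : Type) [TopologicalSpace G] [Group G] [IsTopologicalGroup G]
    [PolishSpace G] (hna : ∀ U ∈ 𝓝 (1 : G), ∃ V : OpenSubgroup G, (V : Set G) ⊆ U)
    (hG : ¬ LocallyCompactSpace G) :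
    ∃ U : ℕ → OpenSubgroup G, (∀ n, U (n + 1) ≤ U n) ∧
      (∀ V ∈ 𝓝 (1 : G), ∃ n, (U n : Set G) ⊆ V) ∧
      ∀ n, ∀ s : Set G, s.Finite → ∃ u ∈ U n, ∀ x ∈ s, x⁻¹ * u ∉ U (n + 1) := by
  obtain ⟨B, hB⟩ := (𝓝 (1 : G)).exists_antitone_basis
  choose S hS1 hS2 hS3 using fun (U : OpenSubgroup G) (n : ℕ) =>
    step G hna hG U (B n) (hB.toHasBasis.mem_of_mem trivial)
  let U : ℕ → OpenSubgroup G := fun n => Nat.rec ⊤ (fun n U => S U n) n
  have hU : ∀ n, U (n + 1) = S (U n) n := fun n => rfl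
  refine ⟨U, fun n => ?_, fun V hV => ?_, fun n s hs => ?_⟩
  · rw [hU]; exact hS1 _ _
  · obtain ⟨n, -, hn⟩ := hB.toHasBasis.mem_iff.1 hV
    exact ⟨n + 1, by rw [hU]; exact (hS2 _ _).trans hn⟩
  · rw [hU]; exact hS3 _ _ s hs

end Pool.Agent.W_908db9_h43
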