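import Pool.Agent.W_908db9_h43.Core
import Pool.Agent.W_908db9_h43.Defs

/-!
MP_908db9_lc: the extension argument, and the sigma-compact example for every Polish group that
is not locally compact.
-/

open Topology Filter Set TopologicalSpace

namespace Pool.Agent.W_908db9_h43

variable {G : Type} [TopologicalSpace G] [Group G] [IsTopologicalGroup G]
  {f : G → unitInterval}

/-- An action extending the restriction of the action on `Z f`, on a set which misses the point
`orb f 1`, misses the whole orbit. -/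
lemma notMem_range (hf : Good f) {A : Set {z : Z f // z ≠ orb f 1}} (hA : Dense A)
    {a : G → A → A}
    (ha : ∀ (g : G) (x : A), (((a g x : A) : {z : Z f // z ≠ orb f 1}) : Z f)
      = g • ((x : {z : Z f // z ≠ orb f 1}) : Z f))
    {B : Set {z : Z f // z ≠ orb f 1}} {b : G → B → B} (hb : IsExtension A a B b)
    {x : {z : Z f // z ≠ orb f 1}} (hx : x ∈ B) : x.1 ∉ range (orb f) := by
  have _ := continuousSMul hf
  rintro ⟨h, hh⟩
  obtain ⟨hAB, ⟨hbc, -, -⟩, hab⟩ := hb
  have hd : Dense {y : B | (y : {z : Z f // z ≠ orb f 1}) ∈ A} := by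
    rw [Subtype.dense_iff]
    have : (Subtype.val '' {y : B | (y : {z : Z f // z ≠ orb f 1}) ∈ A}) = A := by
      ext y
      constructor
      · rintro ⟨y, hy, rfl⟩; exact hy
      · intro hy; exact ⟨⟨y, hAB hy⟩, hy, rfl⟩
    rw [this, hA.closure_eq]
    exact subset_univ _
  have hc1 : Continuous fun y : B => ((b h⁻¹ y : B) : {z : Z f // z ≠ orb f 1}).1 :=
    continuous_subtype_val.comp (continuous_subtype_val.comp
      (hbc.comp (Continuous.prodMk_right h⁻¹)))
  have hc2 : Continuous fun y : B => h⁻¹ • (y : {z : Z f // z ≠ orb f 1}).1 :=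
    (continuous_subtype_val.comp continuous_subtype_val).const_smul h⁻¹
  have heq := Continuous.ext_on hd hc1 hc2 (by
    intro y hy
    have h1 := hab h⁻¹ y hy
    show ((b h⁻¹ y : B) : {z : Z f // z ≠ orb f 1}).1 = _
    rw [h1, ha])
  have h2 := congrFun heq ⟨x, hx⟩
  have h3 : ((b h⁻¹ ⟨x, hx⟩ : B) : {z : Z f // z ≠ orb f 1}).1 = orb f 1 := by
    have h4 : ((b h⁻¹ ⟨x, hx⟩ : B) : {z : Z f // z ≠ orb f 1}).1 = h⁻¹ • x.1 := h2
    rw [h4, ← hh, smul_orb, inv_mul_cancel]
  exact ((b h⁻¹ ⟨x, hx⟩ : B) : {z : Z f // z ≠ orb f 1}).2 h3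

omit [TopologicalSpace G] [IsTopologicalGroup G] in
lemma isOpenMap_val : IsOpenMap (Subtype.val : {z : Z f // z ≠ orb f 1} → Z f) :=
  (isOpen_ne (x := orb f 1)).isOpenMap_subtype_val

lemma polish_compl [PolishSpace G] (hf : Good f) : PolishSpace {z : Z f // z ≠ orb f 1} := by
  have _ := polish hf
  exact (isOpen_ne (x := orb f 1)).polishSpace

/-- A dense set which misses the orbit is not a `G_δ`. -/
lemma not_isGδ [PolishSpace G] (hf : Good f) {B : Set {z : Z f // z ≠ orb f 1}}
    (hne : B.Nonempty) (hB : Dense B) (hBo : ∀ x ∈ B, x.1 ∉ range (orb f)) : ¬ IsGδ B := by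
  intro hG
  have _ := polish_compl hf
  have h1 : IsGδ (Subtype.val ⁻¹' range (orb f) : Set {z : Z f // z ≠ orb f 1}) :=
    (isGδ_range_of_isEmbedding (isEmbedding_orb hf) denseRange_orb).preimage
      continuous_subtype_val
  have h2 : Dense (Subtype.val ⁻¹' range (orb f) : Set {z : Z f // z ≠ orb f 1}) :=
    Dense.preimage denseRange_orb isOpenMap_val
  have h3 := Dense.inter_of_Gδ hG h1 hB h2
  obtain ⟨x, -⟩ := hne
  have _ : Nonempty {z : Z f // z ≠ orb f 1} := ⟨x⟩
  obtain ⟨y, hy, hy'⟩ := h3.nonempty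
  exact hBo y hy hy'

/-- A set which misses the orbit is meagre. -/
lemma isMeagre_of_miss [PolishSpace G] (hf : Good f) {B : Set {z : Z f // z ≠ orb f 1}}
    (hBo : ∀ x ∈ B, x.1 ∉ range (orb f)) : IsMeagre B := by
  have h1 : IsGδ (Subtype.val ⁻¹' range (orb f) : Set {z : Z f // z ≠ orb f 1}) :=
    (isGδ_range_of_isEmbedding (isEmbedding_orb hf) denseRange_orb).preimage
      continuous_subtype_val
  have h2 : Dense (Subtype.val ⁻¹' range (orb f) : Set {z : Z f // z ≠ orb f 1}) :=
    Dense.preimage denseRange_orb isOpenMap_val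
  exact mem_of_superset (residual_of_dense_Gδ h1 h2) fun x hx hxB => hBo x hxB hx

/-- The good function of a Polish group. -/
lemma exists_good (G : Type) [TopologicalSpace G] [Group G] [IsTopologicalGroup G]
    [PolishSpace G] : ∃ f : G → unitInterval, Good f := by
  let _ : UniformSpace G := IsTopologicalGroup.rightUniformSpace G
  have hcg : (uniformity G).IsCountablyGenerated := by
    rw [uniformity_eq_comap_nhds_one' G]
    infer_instance
  let _ : PseudoMetricSpace G := UniformSpace.pseudoMetricSpace G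
  refine ⟨fun x => ⟨min 1 (dist x 1), by positivity, min_le_left _ _⟩, ?_, ?_⟩
  · intro ε hε
    have h1 : {p : G × G | dist p.1 p.2 < ε} ∈ uniformity G := Metric.dist_mem_uniformity hε
    rw [uniformity_eq_comap_nhds_one' G] at h1
    obtain ⟨U, hU, hUV⟩ := h1
    refine ⟨U, hU, fun x u hu => ?_⟩
    have h2 : dist x (u * x) < ε := by
      have : ((x, u * x) : G × G) ∈ {p : G × G | dist p.1 p.2 < ε} := by
        apply hUV
        show u * x * x⁻¹ ∈ U
        simpa using hu
      exact this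
    rw [Subtype.dist_eq, Real.dist_eq]
    have h3 : |min 1 (dist (u * x) 1) - min 1 (dist x 1)| ≤ |dist (u * x) 1 - dist x 1| := by
      have := abs_min_sub_min_le_max (1 : ℝ) (dist (u * x) 1) 1 (dist x 1)
      simpa using this
    have h4 : |dist (u * x) 1 - dist x 1| ≤ dist (u * x) x := abs_dist_sub_le _ _ _
    rw [dist_comm] at h2
    show |min 1 (dist (u * x) 1) - min 1 (dist x 1)| ≤ ε
    linarith
  · intro V hV
    obtain ⟨ε, hε, hεV⟩ := Metric.mem_nhds_iff.1 hV
    refine ⟨min ε 1, by positivity, fun x hx => hεV ?_⟩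
    rw [Subtype.dist_eq, Real.dist_eq] at hx
    have h1 : |min 1 (dist x 1) - min 1 (dist (1 : G) 1)| < min ε 1 := hx
    rw [dist_self, min_eq_right (zero_le_one), sub_zero, abs_of_nonneg (by positivity)] at h1
    rw [Metric.mem_ball]
    rcases le_total 1 (dist x 1) with h | h
    · rw [min_eq_left h] at h1
      exact absurd h1 (not_lt.2 (min_le_right _ _))
    · rw [min_eq_right h] at h1
      exact h1.trans_le (min_le_left _ _)

lemma isContAction_of_smul (hf : Good f) {A : Set {z : Z f // z ≠ orb f 1}} {a : G → A → A}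
    (ha : ∀ (g : G) (x : A), (((a g x : A) : {z : Z f // z ≠ orb f 1}) : Z f)
      = g • ((x : {z : Z f // z ≠ orb f 1}) : Z f)) : IsContAction A a := by
  have _ := continuousSMul hf
  refine ⟨?_, ?_, ?_⟩
  · refine Continuous.subtype_mk (f := fun p : G × A => (a p.1 p.2).1) ?_ (fun p => (a p.1 p.2).2)
    rw [continuous_induced_rng]
    have : (Subtype.val ∘ fun p : G × A => ((a p.1 p.2 : A) : {z : Z f // z ≠ orb f 1}))
        = fun p : G × A => p.1 • ((p.2 : {z : Z f // z ≠ orb f 1}) : Z f) := by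
      funext p; exact ha p.1 p.2
    rw [this]
    exact continuous_fst.smul
      (continuous_subtype_val.comp (continuous_subtype_val.comp continuous_snd))
  · intro x
    refine Subtype.ext (Subtype.ext ?_)
    rw [ha, one_smul]
  · intro g h x
    refine Subtype.ext (Subtype.ext ?_)
    rw [ha, ha, ha, mul_smul]

/-- The action on an invariant set. -/
noncomputable def restr (A' : Set (Z f)) (hinv : ∀ (g : G), ∀ z ∈ A', g • z ∈ A')
    (hz : orb f 1 ∉ A') (g : G)
    (x : (Subtype.val ⁻¹' A' : Set {z : Z f // z ≠ orb f 1})) :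
    (Subtype.val ⁻¹' A' : Set {z : Z f // z ≠ orb f 1}) :=
  ⟨⟨g • x.1.1, fun h => hz (h ▸ hinv g _ x.2)⟩, hinv g _ x.2⟩

theorem part1 (G : Type) [TopologicalSpace G] [Group G] [IsTopologicalGroup G]
    [PolishSpace G] (hG : ¬ LocallyCompactSpace G) :
    ∃ (Z : Type) (_ : TopologicalSpace Z) (_ : MulAction G Z) (z₀ : Z)
      (A : Set {z : Z // z ≠ z₀}) (a : G → A → A),
      CompactSpace Z ∧ MetrizableSpace Z ∧ ContinuousSMul G Z ∧
      PolishSpace {z : Z // z ≠ z₀} ∧
      (∀ (g : G) (x : A), (((a g x : A) : {z : Z // z ≠ z₀}) : Z)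
        = g • ((x : {z : Z // z ≠ z₀}) : Z)) ∧
      IsContAction A a ∧ IsSigmaCompact A ∧ Dense A ∧ IsMeagre A ∧ ¬ IsGδ A ∧
      ∀ (B : Set {z : Z // z ≠ z₀}) (b : G → B → B), IsExtension A a B b → B = A := by
  obtain ⟨f, hf⟩ := exists_good G
  have hP := polish hf
  have hS := continuousSMul hf
  have hPc := polish_compl hf
  have hinv : ∀ (g : G), ∀ z ∈ (range (orb f))ᶜ, g • z ∈ (range (orb f))ᶜ := by
    rintro g z hz ⟨h, hh⟩
    apply hz
    refine ⟨g⁻¹ * h, ?_⟩
    rw [← smul_orb, hh, inv_smul_smul]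
  have hz : orb f 1 ∉ (range (orb f))ᶜ := fun h => h ⟨1, rfl⟩
  have hAd : Dense (Subtype.val ⁻¹' (range (orb f))ᶜ : Set {z : Z f // z ≠ orb f 1}) :=
    Dense.preimage (dense_compl_range hf hG) isOpenMap_val
  have hne : (Subtype.val ⁻¹' (range (orb f))ᶜ : Set {z : Z f // z ≠ orb f 1}).Nonempty := by
    have _ : Nonempty (Z f) := ⟨orb f 1⟩
    obtain ⟨z, hz'⟩ := (dense_compl_range hf hG).nonempty
    exact ⟨⟨z, fun h => hz (h ▸ hz')⟩, hz'⟩
  refine ⟨Z f, inferInstance, inferInstance, orb f 1, Subtype.val ⁻¹' (range (orb f))ᶜ,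
    restr _ hinv hz, inferInstance, inferInstance, hS, hPc, fun g x => rfl,
    isContAction_of_smul hf (fun g x => rfl), ?_, hAd, isMeagre_of_miss hf fun x hx => hx,
    not_isGδ hf hne hAd fun x hx => hx, ?_⟩
  · have h1 : IsGδ (range (orb f)) :=
      isGδ_range_of_isEmbedding (isEmbedding_orb hf) denseRange_orb
    obtain ⟨V, hVo, hV⟩ := isGδ_iff_eq_iInter_nat.1 h1
    have h2 : (Subtype.val ⁻¹' (range (orb f))ᶜ : Set {z : Z f // z ≠ orb f 1})
        = ⋃ n, Subtype.val ⁻¹' (V n)ᶜ := by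
      rw [hV, compl_iInter, preimage_iUnion]
    rw [h2]
    refine isSigmaCompact_iUnion_of_isCompact _ fun n => ?_
    refine IsInducing.subtypeVal.isCompact_preimage' (hVo n).isClosed_compl.isCompact ?_
    intro z hz'
    refine ⟨⟨z, fun h => hz' ?_⟩, rfl⟩
    have : z ∈ range (orb f) := ⟨1, h.symm⟩
    rw [hV] at this
    exact mem_iInter.1 this n
  · intro B b hb
    refine Subset.antisymm (fun x hx => ?_) hb.1
    exact notMem_range hf hAd (fun g x => rfl) hb hx

end Pool.Agent.W_908db9_h43
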