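import Pool.Agent.W_908db9_h43.Part1
import Pool.Agent.W_908db9_h43.Index

/-!
MP_908db9_lc: the countable example for non-archimedean groups.
-/

open Topology Filter Set TopologicalSpace

namespace Pool.Agent.W_908db9_h43

variable {G : Type} [TopologicalSpace G] [Group G]

open Classical in
/-- The distance of `x` to `1`, measured by a sequence of open subgroups. -/
noncomputable def fU (U : ℕ → OpenSubgroup G) (x : G) : ℝ :=
  ⨅ n, if x ∈ U n then (1 / 2 : ℝ) ^ (n + 1) else 1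

variable {U : ℕ → OpenSubgroup G}

lemma bdd_fU (x : G) : BddBelow (range fun n => open Classical in
    if x ∈ U n then (1 / 2 : ℝ) ^ (n + 1) else 1) := by
  refine ⟨0, ?_⟩
  rintro _ ⟨n, rfl⟩
  dsimp only
  split_ifs <;> positivity

lemma fU_nonneg (x : G) : 0 ≤ fU U x := by
  classical
  refine le_ciInf fun n => ?_
  split_ifs <;> positivity

lemma fU_le_one (x : G) : fU U x ≤ 1 := by
  classical
  refine (ciInf_le (bdd_fU x) 0).trans ?_
  split_ifs <;> norm_num

lemma fU_le {x : G} {n : ℕ} (hx : x ∈ U n) : fU U x ≤ (1 / 2 : ℝ) ^ (n + 1) := by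
  classical
  refine (ciInf_le (bdd_fU x) n).trans ?_
  rw [if_pos hx]

lemma le_fU (hU : Antitone U) {x : G} {n : ℕ} (hx : x ∉ U n) : (1 / 2 : ℝ) ^ n ≤ fU U x := by
  classical
  refine le_ciInf fun m => ?_
  split_ifs with h
  · refine pow_le_pow_of_le_one (by norm_num) (by norm_num) ?_
    by_contra hcon
    exact hx (hU (by omega) h)
  · exact pow_le_one₀ (by norm_num) (by norm_num)

lemma fU_congr (hU : Antitone U) {x y : G} {m : ℕ} (hx : x ∉ U m)
    (h : ∀ n ≤ m, (x ∈ U n ↔ y ∈ U n)) : fU U x = fU U y := by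
  classical
  unfold fU
  congr 1
  funext n
  have : x ∈ U n ↔ y ∈ U n := by
    rcases le_total n m with hn | hn
    · exact h n hn
    · have h1 : x ∉ U n := fun h' => hx (hU hn h')
      have h2 : y ∉ U n := fun h' => hx ((h m le_rfl).2 (hU hn h'))
      exact iff_of_false h1 h2
  simp only [this]

lemma fU_mul_right (hU : Antitone U) {x u : G} {m : ℕ} (hx : x ∉ U m) (hu : u ∈ U m) :
    fU U (x * u) = fU U x :=
  (fU_congr hU hx fun _ hn => (mul_mem_cancel_right (hU hn hu)).symm).symm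

lemma fU_mul_left (hU : Antitone U) {x u : G} {m : ℕ} (hx : x ∉ U m) (hu : u ∈ U m) :
    fU U (u * x) = fU U x :=
  (fU_congr hU hx fun _ hn => (mul_mem_cancel_left (hU hn hu)).symm).symm

/-- The same function with values in the unit interval. -/
noncomputable def fI (U : ℕ → OpenSubgroup G) (x : G) : unitInterval :=
  ⟨fU U x, fU_nonneg x, fU_le_one x⟩

lemma fU_one : fU U (1 : G) = 0 := by
  refine le_antisymm ?_ (fU_nonneg _)
  refine le_of_forall_pos_le_add fun ε hε => ?_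
  obtain ⟨n, hn⟩ := exists_pow_lt_of_lt_one hε (by norm_num : (1 / 2 : ℝ) < 1)
  have h1 : fU U (1 : G) ≤ (1 / 2 : ℝ) ^ (n + 1) := fU_le (one_mem _)
  have h2 : (1 / 2 : ℝ) ^ (n + 1) ≤ (1 / 2 : ℝ) ^ n :=
    pow_le_pow_of_le_one (by norm_num) (by norm_num) (by omega)
  linarith

lemma good_fI (hU : Antitone U) (hb : ∀ V ∈ 𝓝 (1 : G), ∃ n, (U n : Set G) ⊆ V) :
    Good (fI U) := by
  constructor
  · intro ε hε
    obtain ⟨m, hm⟩ := exists_pow_lt_of_lt_one hε (by norm_num : (1 / 2 : ℝ) < 1)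
    refine ⟨U m, (U m).mem_nhds_one, fun x u hu => ?_⟩
    rw [Subtype.dist_eq, Real.dist_eq]
    show |fU U (u * x) - fU U x| ≤ ε
    by_cases hx : x ∈ U m
    · have h1 : fU U x ≤ (1 / 2 : ℝ) ^ (m + 1) := fU_le hx
      have h2 : fU U (u * x) ≤ (1 / 2 : ℝ) ^ (m + 1) := fU_le (mul_mem hu hx)
      have h3 : (1 / 2 : ℝ) ^ (m + 1) ≤ (1 / 2 : ℝ) ^ m :=
        pow_le_pow_of_le_one (by norm_num) (by norm_num) (by omega)
      have h4 := fU_nonneg (U := U) x
      have h5 := fU_nonneg (U := U) (u * x)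
      rw [abs_le]; constructor <;> linarith
    · rw [fU_mul_left hU hx hu, sub_self, abs_zero]; exact hε.le
  · intro V hV
    obtain ⟨n, hn⟩ := hb V hV
    refine ⟨(1 / 2 : ℝ) ^ n, by positivity, fun x hx => hn ?_⟩
    rw [Subtype.dist_eq, Real.dist_eq] at hx
    have h1 : |fU U x - fU U 1| < (1 / 2 : ℝ) ^ n := hx
    rw [fU_one, sub_zero, abs_of_nonneg (fU_nonneg x)] at h1
    by_contra hcon
    exact absurd h1 (not_lt.2 (le_fU hU hcon))

open Classical in
/-- The node of the tree of cosets. -/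
noncomputable def node (U : ℕ → OpenSubgroup G) (m : ℕ) (x : G) : unitInterval :=
  if x ∈ U m then ⟨(1 / 2 : ℝ) ^ (m + 1), by positivity,
    pow_le_one₀ (by norm_num) (by norm_num)⟩ else fI U x

lemma node_of_mem {m : ℕ} {x : G} (hx : x ∈ U m) :
    (node U m x : ℝ) = (1 / 2 : ℝ) ^ (m + 1) := by
  classical
  unfold node; rw [if_pos hx]

lemma node_of_notMem {m : ℕ} {x : G} (hx : x ∉ U m) : node U m x = fI U x := by
  classical
  unfold node; rw [if_neg hx]

lemma act_node (hU : Antitone U) {m : ℕ} {u : G} (hu : u ∈ U m) :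
    act u (node U m) = node U m := by
  funext x
  rw [act_apply]
  by_cases hx : x ∈ U m
  · exact Subtype.ext (by rw [node_of_mem hx, node_of_mem (mul_mem hx hu)])
  · have hxu : x * u ∉ U m := fun h => hx ((mul_mem_cancel_right hu).1 h)
    rw [node_of_notMem hx, node_of_notMem hxu]
    exact Subtype.ext (fU_mul_right hU hx hu)

lemma node_mem (hU : Antitone U)
    (hinf : ∀ n, ∀ s : Set G, s.Finite → ∃ u ∈ U n, ∀ x ∈ s, x⁻¹ * u ∉ U (n + 1)) (m : ℕ) :
    node U m ∈ closure (range fun g : G => act g (fI U)) := by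
  rw [mem_closure_iff_nhds]
  intro t ht
  rw [nhds_pi, Filter.mem_pi] at ht
  obtain ⟨I, hI, t', ht', hIt⟩ := ht
  obtain ⟨u, hu, hux⟩ := hinf m ((fun x => x⁻¹) '' I) (hI.image _)
  refine ⟨act u (fI U), hIt ?_, u, rfl⟩
  intro x hx
  have h1 : act u (fI U) x = node U m x := by
    rw [act_apply]
    by_cases hxm : x ∈ U m
    · refine Subtype.ext ?_
      rw [node_of_mem hxm]
      refine le_antisymm (fU_le (mul_mem hxm hu)) (le_fU hU ?_)
      have := hux x⁻¹ ⟨x, hx, rfl⟩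
      rwa [inv_inv] at this
    · rw [node_of_notMem hxm]
      exact Subtype.ext (fU_mul_right hU hxm hu)
  rw [h1]
  exact mem_of_mem_nhds (ht' x)

theorem part2 (G : Type) [TopologicalSpace G] [Group G] [IsTopologicalGroup G]
    [PolishSpace G] (hna : ∀ V ∈ 𝓝 (1 : G), ∃ H : OpenSubgroup G, (H : Set G) ⊆ V)
    (hG : ¬ LocallyCompactSpace G) :
    ∃ (Z : Type) (_ : TopologicalSpace Z) (_ : MulAction G Z) (z₀ : Z)
      (A : Set {z : Z // z ≠ z₀}) (a : G → A → A),
      CompactSpace Z ∧ MetrizableSpace Z ∧ ContinuousSMul G Z ∧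
      PolishSpace {z : Z // z ≠ z₀} ∧
      (∀ (g : G) (x : A), (((a g x : A) : {z : Z // z ≠ z₀}) : Z)
        = g • ((x : {z : Z // z ≠ z₀}) : Z)) ∧
      IsContAction A a ∧ A.Countable ∧ Dense A ∧
      ∀ (B : Set {z : Z // z ≠ z₀}) (b : G → B → B), IsExtension A a B b →
        IsMeagre B ∧ ¬ IsGδ B := by
  obtain ⟨U, hU1, hb, hinf⟩ := exists_seq G hna hG
  have hU : Antitone U := antitone_nat_of_succ_le hU1
  have hf : Good (fI U) := good_fI hU hb
  have hP := polish hf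
  have hS := continuousSMul hf
  have hPc := polish_compl hf
  let nd : ℕ → Z (fI U) := fun m => ⟨node U m, node_mem hU hinf m⟩
  let A' : Set (Z (fI U)) := range fun p : G × ℕ => p.1 • nd p.2
  have hinv : ∀ (g : G), ∀ z ∈ A', g • z ∈ A' := by
    rintro g _ ⟨⟨h, m⟩, rfl⟩
    exact ⟨(g * h, m), (mul_smul g h (nd m))⟩
  have hpos : ∀ m x, 0 < (node U m x : ℝ) := by
    intro m x
    by_cases hx : x ∈ U m
    · rw [node_of_mem hx]; positivity
    · rw [node_of_notMem hx]
      exact lt_of_lt_of_le (by positivity) (le_fU hU hx)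
  have hAo : ∀ z ∈ A', z ∉ range (orb (fI U)) := by
    rintro _ ⟨⟨g, m⟩, rfl⟩ ⟨h, hh⟩
    have h1 : orb (fI U) (g⁻¹ * h) = nd m := by
      rw [← smul_orb, hh, inv_smul_smul]
    have h2 : (orb (fI U) (g⁻¹ * h)).1 (g⁻¹ * h)⁻¹ = (nd m).1 (g⁻¹ * h)⁻¹ := by rw [h1]
    have h3 : (orb (fI U) (g⁻¹ * h)).1 (g⁻¹ * h)⁻¹ = fI U 1 := by
      show fI U ((g⁻¹ * h)⁻¹ * (g⁻¹ * h)) = fI U 1
      rw [inv_mul_cancel]
    have h4 : ((nd m).1 (g⁻¹ * h)⁻¹ : ℝ) = 0 := by
      rw [← h2, h3]; exact fU_one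
    exact absurd h4 (hpos m _).ne'
  have hz : orb (fI U) 1 ∉ A' := fun h => hAo _ h ⟨1, rfl⟩
  have hlim : Tendsto nd atTop (𝓝 (orb (fI U) 1)) := by
    have h0 : 𝓝 (orb (fI U) 1) = comap (fun w : Z (fI U) => w.1) (𝓝 (orb (fI U) 1).1) :=
      nhds_induced _ _
    rw [h0, tendsto_comap_iff, tendsto_pi_nhds]
    intro x
    rw [Metric.tendsto_atTop]
    intro ε hε
    obtain ⟨n, hn⟩ := exists_pow_lt_of_lt_one hε (by norm_num : (1 / 2 : ℝ) < 1)
    refine ⟨n, fun m hm => ?_⟩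
    have h1 : (orb (fI U) 1).1 x = fI U x := by
      show fI U (x * 1) = fI U x
      rw [mul_one]
    rw [h1]
    show dist (node U m x) (fI U x) < ε
    by_cases hx : x ∈ U m
    · rw [Subtype.dist_eq, Real.dist_eq, node_of_mem hx]
      show |(1 / 2 : ℝ) ^ (m + 1) - fU U x| < ε
      have h2 : fU U x ≤ (1 / 2 : ℝ) ^ (m + 1) := fU_le hx
      have h3 := fU_nonneg (U := U) x
      have h4 : (1 / 2 : ℝ) ^ (m + 1) ≤ (1 / 2 : ℝ) ^ n :=
        pow_le_pow_of_le_one (by norm_num) (by norm_num) (by omega)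
      rw [abs_of_nonneg (by linarith)]
      linarith
    · rw [node_of_notMem hx, dist_self]; exact hε
  have h1A : orb (fI U) 1 ∈ closure A' :=
    mem_closure_of_tendsto hlim (Eventually.of_forall fun m => ⟨(1, m), one_smul G (nd m)⟩)
  have hgA : range (orb (fI U)) ⊆ closure A' := by
    rintro _ ⟨g, rfl⟩
    have h1 : orb (fI U) g = g • orb (fI U) 1 := by rw [smul_orb, mul_one]
    rw [h1]
    exact map_mem_closure (continuous_const_smul g) h1A (fun z hz => hinv g z hz)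
  have hdA : Dense A' := by
    have h1 : Dense (closure A') := Dense.mono hgA denseRange_orb
    exact dense_closure.1 h1
  have hAd : Dense (Subtype.val ⁻¹' A' : Set {z : Z (fI U) // z ≠ orb (fI U) 1}) :=
    Dense.preimage hdA isOpenMap_val
  have hne : (Subtype.val ⁻¹' A' : Set {z : Z (fI U) // z ≠ orb (fI U) 1}).Nonempty :=
    ⟨⟨nd 0, fun h => hz (h ▸ ⟨(1, 0), one_smul G (nd 0)⟩)⟩, ⟨(1, 0), one_smul G (nd 0)⟩⟩
  have hcA : A'.Countable := by
    obtain ⟨D, hDc, hDd⟩ := exists_countable_dense G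
    have h1 : A' ⊆ (fun p : G × ℕ => p.1 • nd p.2) '' (D ×ˢ univ) := by
      rintro _ ⟨⟨g, m⟩, rfl⟩
      have hop : IsOpen ((fun x => g⁻¹ * x) ⁻¹' (U m : Set G)) :=
        (U m).isOpen.preimage (continuous_const_mul g⁻¹)
      obtain ⟨d, hd, hdg⟩ := hDd.exists_mem_open hop ⟨g, by
            show g⁻¹ * g ∈ (U m : Set G)
            rw [inv_mul_cancel]; exact one_mem (U m)⟩
      refine ⟨(d, m), ⟨hd, mem_univ _⟩, ?_⟩
      show d • nd m = g • nd m
      have h2 : (g⁻¹ * d) • nd m = nd m := Subtype.ext (act_node hU hdg)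
      calc d • nd m = g • (g⁻¹ * d) • nd m := by rw [← mul_smul, mul_inv_cancel_left]
        _ = g • nd m := by rw [h2]
    exact ((hDc.prod countable_univ).image _).mono h1
  refine ⟨Z (fI U), inferInstance, inferInstance, orb (fI U) 1, Subtype.val ⁻¹' A',
    restr _ hinv hz, inferInstance, inferInstance, hS, hPc, fun g x => rfl,
    isContAction_of_smul hf (fun g x => rfl), hcA.preimage Subtype.val_injective, hAd, ?_⟩
  intro B b hb
  have hBo : ∀ x ∈ B, x.1 ∉ range (orb (fI U)) :=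
    fun x hx => notMem_range hf hAd (fun g x => rfl) hb hx
  exact ⟨isMeagre_of_miss hf hBo, not_isGδ hf (hne.mono hb.1) (hAd.mono hb.1) hBo⟩

end Pool.Agent.W_908db9_h43
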