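import Pool.Agent.W_908db9_h43.Base

/-!
MP_908db9_lc: the Polish space of round prime filters of open sets, for an invariant relation.
-/

open Topology Filter Set TopologicalSpace Pointwise

namespace Pool.Agent.W_908db9_h43

/-- An invariant interpolative relation between sets, with a countable interpolating family. -/
structure IsRel (G : Type) {A : Type} [TopologicalSpace G] [Group G] [TopologicalSpace A]
    [MulAction G A] (ℬ : Set (Set A)) (R : Set A → Set A → Prop) : Prop where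
  count : ℬ.Countable
  isOpen : ∀ O ∈ ℬ, IsOpen O
  sub : ∀ O' O, R O' O → O' ⊆ O
  mono : ∀ O₁ O₂ O₃ O₄, O₁ ⊆ O₂ → R O₂ O₃ → O₃ ⊆ O₄ → R O₁ O₄
  interp : ∀ O' O, R O' O → ∃ B ∈ ℬ, R O' B ∧ R B O
  base : ∀ a : A, ∀ W, IsOpen W → a ∈ W → ∃ O, IsOpen O ∧ a ∈ O ∧ R O W ∧ closure O ⊆ W
  inv : ∀ O' O, ∀ g : G, R O' O → R (g • O') (g • O)
  small : ∀ O' O, R O' O → ∃ U ∈ 𝓝 (1 : G), ∀ g ∈ U, g • O' ⊆ O

/-- Two steps of the relation with a closure between them. -/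
def Well {A : Type} [TopologicalSpace A] (R : Set A → Set A → Prop) (O' O : Set A) : Prop :=
  ∃ B' B, IsOpen B' ∧ IsOpen B ∧ R O' B' ∧ closure B' ⊆ B ∧ R B O

/-- Round prime filters of open sets. -/
structure IsPnt {A : Type} [TopologicalSpace A] (R : Set A → Set A → Prop)
    (p : Set (Set A)) : Prop where
  opn : ∀ O ∈ p, IsOpen O
  up : ∀ O ∈ p, ∀ W, IsOpen W → O ⊆ W → W ∈ p
  inter : ∀ O₁ ∈ p, ∀ O₂ ∈ p, O₁ ∩ O₂ ∈ p
  ne : ∅ ∉ p
  univ : Set.univ ∈ p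
  round : ∀ O ∈ p, ∃ O' ∈ p, R O' O ∧ closure O' ⊆ O
  dec : ∀ O' O, IsOpen O' → IsOpen O → Well R O' O → O ∈ p ∨ ∃ O'' ∈ p, Disjoint O'' O'

/-- The space of points. -/
def Pnt {A : Type} [TopologicalSpace A] (R : Set A → Set A → Prop) : Type :=
  {p : Set (Set A) // IsPnt R p}

section

variable {A : Type} [TopologicalSpace A] {R : Set A → Set A → Prop}

/-- The basic open sets. -/
def bs (R : Set A → Set A → Prop) (O : Set A) : Set (Pnt R) := {p | O ∈ p.1}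

instance : TopologicalSpace (Pnt R) := generateFrom (bs R '' {O | IsOpen O})

lemma isOpen_bs {O : Set A} (hO : IsOpen O) : IsOpen (bs R O) :=
  isOpen_generateFrom_of_mem ⟨O, hO, rfl⟩

lemma isTopologicalBasis_bs : IsTopologicalBasis (bs R '' {O | IsOpen O}) where
  exists_subset_inter := by
    rintro _ ⟨O₁, h1, rfl⟩ _ ⟨O₂, h2, rfl⟩ p ⟨hp1, hp2⟩
    refine ⟨bs R (O₁ ∩ O₂), ⟨O₁ ∩ O₂, IsOpen.inter h1 h2, rfl⟩, p.2.inter O₁ hp1 O₂ hp2,
      fun q hq => ⟨?_, ?_⟩⟩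
    · exact q.2.up _ hq O₁ h1 inter_subset_left
    · exact q.2.up _ hq O₂ h2 inter_subset_right
  sUnion_eq := by
    refine eq_univ_of_forall fun p => ?_
    exact ⟨bs R Set.univ, ⟨Set.univ, isOpen_univ, rfl⟩, p.2.univ⟩
  eq_generateFrom := rfl

lemma exists_bs {p : Pnt R} {N : Set (Pnt R)} (hN : IsOpen N) (hp : p ∈ N) :
    ∃ O ∈ p.1, bs R O ⊆ N := by
  obtain ⟨_, ⟨O, -, rfl⟩, hpO, hON⟩ := isTopologicalBasis_bs.exists_subset_of_mem_open hp hN
  exact ⟨O, hpO, hON⟩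

lemma bs_empty : bs R ∅ = ∅ := by
  refine eq_empty_of_forall_notMem fun p hp => p.2.ne hp

lemma bs_mono {O W : Set A} (hW : IsOpen W) (h : O ⊆ W) : bs R O ⊆ bs R W :=
  fun p hp => p.2.up O hp W hW h

instance : T0Space (Pnt R) := by
  refine ⟨fun p q hpq => ?_⟩
  refine Subtype.ext (Set.ext fun O => ?_)
  constructor
  · intro hO
    exact (hpq.mem_open_iff (isOpen_bs (p.2.opn O hO))).1 hO
  · intro hO
    exact (hpq.mem_open_iff (isOpen_bs (q.2.opn O hO))).2 hO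

end

section

variable {G A : Type} [TopologicalSpace G] [Group G] [TopologicalSpace A]
  [MulAction G A] {ℬ : Set (Set A)} {R : Set A → Set A → Prop}

lemma exists_well (hR : IsRel G ℬ R) {p : Pnt R} {O : Set A} (hO : O ∈ p.1) :
    ∃ O' ∈ p.1, Well R O' O := by
  obtain ⟨C₁, hC₁, h1, -⟩ := p.2.round O hO
  obtain ⟨B, hB, hCB, hBO⟩ := hR.interp _ _ h1
  have hBp : B ∈ p.1 := p.2.up C₁ hC₁ B (hR.isOpen B hB) (hR.sub _ _ hCB)
  obtain ⟨C₂, hC₂, h2, hcl⟩ := p.2.round B hBp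
  obtain ⟨C₃, hC₃, h3, -⟩ := p.2.round C₂ hC₂
  exact ⟨C₃, hC₃, C₂, B, p.2.opn _ hC₂, hR.isOpen B hB, h3, hcl, hBO⟩

lemma regularSpace_pnt (hR : IsRel G ℬ R) : RegularSpace (Pnt R) := by
  refine .of_exists_mem_nhds_isClosed_subset fun p s hs => ?_
  obtain ⟨N, hNs, hNo, hpN⟩ := mem_nhds_iff.1 hs
  obtain ⟨O, hO, hON⟩ := exists_bs hNo hpN
  obtain ⟨O', hO', hw⟩ := exists_well hR hO
  refine ⟨closure (bs R O'), ?_, isClosed_closure, ?_⟩
  · exact mem_of_superset ((isOpen_bs (p.2.opn _ hO')).mem_nhds hO') subset_closure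
  · intro q hq
    refine hNs (hON ?_)
    rcases q.2.dec O' O (p.2.opn _ hO') (p.2.opn _ hO) hw with h | ⟨O'', h, hd⟩
    · exact h
    · exfalso
      obtain ⟨r, hr1, hr2⟩ := mem_closure_iff.1 hq (bs R O'') (isOpen_bs (q.2.opn _ h)) h
      have h3 := r.2.inter O'' hr1 O' hr2
      rw [Set.disjoint_iff_inter_eq_empty.1 hd] at h3
      exact r.2.ne h3

lemma exists_mem_base (hR : IsRel G ℬ R) {p : Pnt R} {O : Set A} (hO : O ∈ p.1) :
    ∃ B ∈ ℬ, B ∈ p.1 ∧ R B O ∧ closure B ⊆ O := by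
  obtain ⟨C₁, hC₁, h1, hcl⟩ := p.2.round O hO
  obtain ⟨C₂, hC₂, h2, -⟩ := p.2.round C₁ hC₁
  obtain ⟨B, hB, hCB, hBC⟩ := hR.interp _ _ h2
  refine ⟨B, hB, p.2.up C₂ hC₂ B (hR.isOpen B hB) (hR.sub _ _ hCB), ?_, ?_⟩
  · exact hR.mono B B C₁ O Subset.rfl hBC (hR.sub _ _ h1)
  · exact (closure_mono (hR.sub _ _ hBC)).trans hcl

lemma secondCountable_pnt (hR : IsRel G ℬ R) : SecondCountableTopology (Pnt R) := by
  have : IsTopologicalBasis (bs R '' ℬ) := by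
    refine isTopologicalBasis_of_isOpen_of_nhds ?_ ?_
    · rintro _ ⟨O, hO, rfl⟩
      exact isOpen_bs (hR.isOpen O hO)
    · intro p N hp hN
      obtain ⟨O, hO, hON⟩ := exists_bs hN hp
      obtain ⟨B, hB, hBp, hBO, -⟩ := exists_mem_base hR hO
      exact ⟨bs R B, ⟨B, hB, rfl⟩, hBp, (bs_mono (p.2.opn _ hO) (hR.sub _ _ hBO)).trans hON⟩
  exact this.secondCountableTopology (hR.count.image _)

theorem polish_pnt (hR : IsRel G ℬ R) : PolishSpace (Pnt R) := by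
  have _ := secondCountable_pnt hR
  have _ := regularSpace_pnt hR
  have _ : T3Space (Pnt R) := ⟨⟩
  let _ : MetricSpace (Pnt R) := metrizableSpaceMetric (Pnt R)
  let Y := UniformSpace.Completion (Pnt R)
  let e : Pnt R → Y := fun p => (p : UniformSpace.Completion (Pnt R))
  have hY : PolishSpace Y := by
    have _ : SeparableSpace Y := UniformSpace.Completion.separableSpace_completion
    have _ : SecondCountableTopology Y := UniformSpace.secondCountable_of_separable Y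
    infer_instance
  have he : IsEmbedding e := (UniformSpace.Completion.isUniformEmbedding_coe (Pnt R)).isEmbedding
  have hd : DenseRange e := UniformSpace.Completion.denseRange_coe
  let hat : Set A → Set Y := fun O => ⋃₀ {N | IsOpen N ∧ e ⁻¹' N ⊆ bs R O}
  have hato : ∀ O, IsOpen (hat O) := fun O => isOpen_sUnion fun N hN => hN.1
  have hat_iff : ∀ O, IsOpen O → ∀ p : Pnt R, e p ∈ hat O ↔ O ∈ p.1 := by
    intro O hO p
    constructor
    · rintro ⟨N, ⟨-, hN⟩, hpN⟩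
      exact hN hpN
    · intro hp
      obtain ⟨N, hN, hNe⟩ := he.isInducing.isOpen_iff.1 (isOpen_bs (R := R) hO)
      refine ⟨N, ⟨hN, hNe.subset⟩, ?_⟩
      have : p ∈ e ⁻¹' N := by rw [hNe]; exact hp
      exact this
  let S : Set Y := (⋂ B₁ ∈ ℬ, ⋂ B₂ ∈ ℬ, ((hat B₁)ᶜ ∪ ((hat B₂)ᶜ ∪
      ⋃ B₃ ∈ {B₃ | B₃ ∈ ℬ ∧ R B₃ (B₁ ∩ B₂) ∧ closure B₃ ⊆ B₁ ∩ B₂}, hat B₃))) ∩
    ((⋂ O ∈ ℬ, ⋂ O' ∈ {O' | O' ∈ ℬ ∧ Well R O' O}, (hat O ∪
      ⋃ O'' ∈ {O'' | O'' ∈ ℬ ∧ Disjoint O'' O'}, hat O'')) ∩ ⋃ O ∈ ℬ, hat O)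
  have hSδ : IsGδ S := by
    refine IsGδ.inter ?_ (IsGδ.inter ?_ ?_)
    · refine IsGδ.biInter hR.count fun O₁ _ => IsGδ.biInter hR.count fun O₂ _ => ?_
      refine IsGδ.union (hato O₁).isClosed_compl.isGδ (IsGδ.union
        (hato O₂).isClosed_compl.isGδ ?_)
      exact (isOpen_biUnion fun O₃ _ => hato O₃).isGδ
    · refine IsGδ.biInter hR.count fun O _ =>
        IsGδ.biInter (hR.count.mono fun O' h => h.1) fun O' _ => ?_
      exact ((hato O).union (isOpen_biUnion fun O'' _ => hato O'')).isGδ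
    · exact (isOpen_biUnion fun O _ => hato O).isGδ
  have hS : range e = S := by
    apply Subset.antisymm
    · rintro _ ⟨p, rfl⟩
      refine ⟨?_, ?_, ?_⟩
      · refine mem_iInter₂.2 fun O₁ h1 => mem_iInter₂.2 fun O₂ h2 => ?_
        by_cases hp1 : O₁ ∈ p.1
        · by_cases hp2 : O₂ ∈ p.1
          · obtain ⟨B, hB, hBp, hBO, hcl⟩ := exists_mem_base hR (p.2.inter O₁ hp1 O₂ hp2)
            refine Or.inr (Or.inr (mem_iUnion₂.2 ⟨B, ⟨hB, hBO, hcl⟩, ?_⟩))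
            exact (hat_iff B (hR.isOpen B hB) p).2 hBp
          · exact Or.inr (Or.inl fun h => hp2 ((hat_iff O₂ (hR.isOpen _ h2) p).1 h))
        · exact Or.inl fun h => hp1 ((hat_iff O₁ (hR.isOpen _ h1) p).1 h)
      · refine mem_iInter₂.2 fun O hO => mem_iInter₂.2 fun O' hO' => ?_
        rcases p.2.dec O' O (hR.isOpen _ hO'.1) (hR.isOpen _ hO) hO'.2 with h | ⟨O'', h, hdj⟩
        · exact Or.inl ((hat_iff O (hR.isOpen _ hO) p).2 h)
        · obtain ⟨B, hB, hBp, hBO, -⟩ := exists_mem_base hR h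
          refine Or.inr (mem_iUnion₂.2 ⟨B, ⟨hB, hdj.mono_left (hR.sub _ _ hBO)⟩, ?_⟩)
          exact (hat_iff B (hR.isOpen B hB) p).2 hBp
      · obtain ⟨B, hB, hBp, -, -⟩ := exists_mem_base hR p.2.univ
        exact mem_iUnion₂.2 ⟨B, hB, (hat_iff B (hR.isOpen B hB) p).2 hBp⟩
    · rintro y ⟨hy1, hy2, hy3⟩
      have hp : IsPnt R {O | IsOpen O ∧ ∃ B ∈ ℬ, B ⊆ O ∧ y ∈ hat B} := by
        refine ⟨fun O hO => hO.1, ?_, ?_, ?_, ?_, ?_, ?_⟩
        · rintro O ⟨-, B, hB, hBO, hyB⟩ W hW hOW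
          exact ⟨hW, B, hB, hBO.trans hOW, hyB⟩
        · rintro O₁ ⟨hO₁, B₁, hB₁, hBO₁, hy₁⟩ O₂ ⟨hO₂, B₂, hB₂, hBO₂, hy₂⟩
          rcases mem_iInter₂.1 (mem_iInter₂.1 hy1 B₁ hB₁) B₂ hB₂ with h | h | h
          · exact absurd hy₁ h
          · exact absurd hy₂ h
          · obtain ⟨B₃, ⟨h3, h31, -⟩, hy₃⟩ := mem_iUnion₂.1 h
            exact ⟨hO₁.inter hO₂, B₃, h3,
              (hR.sub _ _ h31).trans (inter_subset_inter hBO₁ hBO₂), hy₃⟩
        · rintro ⟨-, B, hB, hBO, N, ⟨hNo, hN⟩, hyN⟩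
          obtain ⟨p, hp⟩ := hd.exists_mem_open hNo ⟨y, hyN⟩
          have h1 : B ∈ p.1 := hN hp
          rw [subset_empty_iff.1 hBO] at h1
          exact p.2.ne h1
        · obtain ⟨B, hB, hyB⟩ := mem_iUnion₂.1 hy3
          exact ⟨isOpen_univ, B, hB, subset_univ _, hyB⟩
        · rintro O ⟨hO, B, hB, hBO, hyB⟩
          rcases mem_iInter₂.1 (mem_iInter₂.1 hy1 B hB) B hB with h | h | h
          · exact absurd hyB h
          · exact absurd hyB h
          · obtain ⟨B₃, ⟨h3, h31, hcl⟩, hy₃⟩ := mem_iUnion₂.1 h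
            refine ⟨B₃, ⟨hR.isOpen _ h3, B₃, h3, Subset.rfl, hy₃⟩, ?_, ?_⟩
            · exact hR.mono _ _ _ _ Subset.rfl h31 (inter_subset_left.trans hBO)
            · exact (hcl.trans inter_subset_left).trans hBO
        · rintro O' O - hO ⟨B', B, hB', hB, hOB, hcl, hBO⟩
          obtain ⟨O'₀, hO'₀, h1, h2⟩ := hR.interp _ _ hOB
          obtain ⟨O₀, hO₀, h3, h4⟩ := hR.interp _ _ hBO
          have hw : Well R O'₀ O₀ := ⟨B', B, hB', hB, h2, hcl, h3⟩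
          rcases mem_iInter₂.1 (mem_iInter₂.1 hy2 O₀ hO₀) O'₀ ⟨hO'₀, hw⟩ with h | h
          · exact Or.inl ⟨hO, O₀, hO₀, hR.sub _ _ h4, h⟩
          · obtain ⟨B'', ⟨h'', hdj⟩, hy''⟩ := mem_iUnion₂.1 h
            exact Or.inr ⟨B'', ⟨hR.isOpen _ h'', B'', h'', Subset.rfl, hy''⟩,
              hdj.mono_right (hR.sub _ _ h1)⟩
      refine ⟨⟨_, hp⟩, ?_⟩
      by_contra hne
      obtain ⟨N, M, hN, hM, hpN, hyM, hdj⟩ := t2_separation hne
      obtain ⟨O, ⟨hO, B, hB, hBO, N', ⟨hN'o, hN'⟩, hyN'⟩, hON⟩ :=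
        exists_bs (hN.preimage he.continuous) hpN
      obtain ⟨q, hq1, hq2⟩ := hd.exists_mem_open (hM.inter hN'o) ⟨y, hyM, hyN'⟩
      exact Set.disjoint_left.1 hdj (hON (bs_mono hO hBO (hN' hq2))) hq1
  have hPR : PolishSpace (range e) := polishSpace_of_isGδ (hS ▸ hSδ)
  exact he.toHomeomorph.isClosedEmbedding.polishSpace

end

section

variable {G A : Type} [TopologicalSpace G] [Group G] [IsTopologicalGroup G]
  [TopologicalSpace A] [MulAction G A] [ContinuousSMul G A] {ℬ : Set (Set A)}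
  {R : Set A → Set A → Prop}

omit [IsTopologicalGroup G] in
lemma isPnt_smul (hR : IsRel G ℬ R) (g : G) {p : Set (Set A)} (hp : IsPnt R p) :
    IsPnt R {O | g⁻¹ • O ∈ p} := by
  have hback : ∀ O : Set A, g • g⁻¹ • O = O := fun O => smul_inv_smul g O
  have hforth : ∀ O : Set A, g⁻¹ • g • O = O := fun O => inv_smul_smul g O
  have hmono : ∀ {O O' : Set A}, O ⊆ g⁻¹ • O' → g • O ⊆ O' := by
    intro O O' h
    have := smul_set_mono (a := g) h
    rwa [hback] at this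
  refine ⟨?_, ?_, ?_, ?_, ?_, ?_, ?_⟩
  · intro O hO
    have := (hp.opn _ hO).smul g
    rwa [hback] at this
  · intro O hO W hW hOW
    exact hp.up _ hO _ (hW.smul _) (smul_set_mono hOW)
  · intro O₁ h1 O₂ h2
    show g⁻¹ • (O₁ ∩ O₂) ∈ p
    rw [smul_set_inter]
    exact hp.inter _ h1 _ h2
  · intro h
    have h' : g⁻¹ • (∅ : Set A) ∈ p := h
    rw [smul_set_empty] at h'
    exact hp.ne h'
  · show g⁻¹ • (Set.univ : Set A) ∈ p
    rw [smul_set_univ]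
    exact hp.univ
  · intro O hO
    obtain ⟨O', hO', h1, hcl⟩ := hp.round _ hO
    refine ⟨g • O', by show g⁻¹ • g • O' ∈ p; rwa [hforth], ?_, ?_⟩
    · have := hR.inv _ _ g h1
      rwa [hback] at this
    · rw [closure_smul]
      exact hmono hcl
  · rintro O' O hO' hO ⟨B', B, hB', hB, h1, hcl, h2⟩
    have hw : Well R (g⁻¹ • O') (g⁻¹ • O) := by
      refine ⟨g⁻¹ • B', g⁻¹ • B, hB'.smul _, hB.smul _, hR.inv _ _ g⁻¹ h1, ?_,
        hR.inv _ _ g⁻¹ h2⟩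
      rw [closure_smul]
      exact smul_set_mono hcl
    rcases hp.dec _ _ (hO'.smul _) (hO.smul _) hw with h | ⟨O'', h, hd⟩
    · exact Or.inl h
    · refine Or.inr ⟨g • O'', by show g⁻¹ • g • O'' ∈ p; rwa [hforth], ?_⟩
      rw [Set.disjoint_left] at hd ⊢
      rintro _ ⟨y, hy, rfl⟩ hx
      refine hd hy ?_
      have := smul_mem_smul_set (a := g⁻¹) hx
      simpa using this

/-- The action on the space of points. -/
@[reducible] def actPnt (hR : IsRel G ℬ R) : MulAction G (Pnt R) where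
  smul g p := ⟨{O | g⁻¹ • O ∈ p.1}, isPnt_smul hR g p.2⟩
  one_smul p := by
    refine Subtype.ext (Set.ext fun O => ?_)
    show (1 : G)⁻¹ • O ∈ p.1 ↔ O ∈ p.1
    rw [inv_one, one_smul]
  mul_smul g h p := by
    refine Subtype.ext (Set.ext fun O => ?_)
    show (g * h)⁻¹ • O ∈ p.1 ↔ h⁻¹ • g⁻¹ • O ∈ p.1
    rw [mul_inv_rev, mul_smul]

/-- The embedding. -/
def embP (hR : IsRel G ℬ R) (a : A) : Pnt R := ⟨{O | IsOpen O ∧ a ∈ O}, by
  refine ⟨fun O hO => hO.1, ?_, ?_, ?_, ⟨isOpen_univ, mem_univ a⟩, ?_, ?_⟩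
  · rintro O ⟨-, ha⟩ W hW hOW
    exact ⟨hW, hOW ha⟩
  · rintro O₁ ⟨h1, ha1⟩ O₂ ⟨h2, ha2⟩
    exact ⟨h1.inter h2, ha1, ha2⟩
  · rintro ⟨-, h⟩
    exact h
  · rintro O ⟨hO, haO⟩
    obtain ⟨O', hO', haO', h1, hcl⟩ := hR.base a O hO haO
    exact ⟨O', ⟨hO', haO'⟩, h1, hcl⟩
  · rintro O' O - hO ⟨B', B, -, -, h1, hcl, h2⟩
    by_cases ha : a ∈ O
    · exact Or.inl ⟨hO, ha⟩
    · refine Or.inr ⟨(closure O')ᶜ, ⟨isClosed_closure.isOpen_compl, fun h => ha ?_⟩, ?_⟩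
      · exact hR.sub _ _ h2 (hcl (closure_mono (hR.sub _ _ h1) h))
      · exact Set.disjoint_left.2 fun x hx hx' => hx (subset_closure hx')⟩

theorem extension_of_rel [T2Space A] (hR : IsRel G ℬ R) :
    ∃ (P : Type) (_ : TopologicalSpace P) (_ : MulAction G P) (e : A → P),
      PolishSpace P ∧ ContinuousSMul G P ∧ IsEmbedding e ∧ DenseRange e ∧
        ∀ (g : G) (x : A), e (g • x) = g • e x := by
  let _ : MulAction G (Pnt R) := actPnt hR
  have hmem : ∀ (g : G) (p : Pnt R) (O : Set A), O ∈ (g • p).1 ↔ g⁻¹ • O ∈ p.1 :=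
    fun g p O => Iff.rfl
  have hcont : ContinuousSMul G (Pnt R) := by
    refine ⟨?_⟩
    have : Continuous fun q : G × Pnt R => q.1 • q.2 := by
      refine continuous_generateFrom_iff.2 ?_
      rintro _ ⟨O, hO, rfl⟩
      rw [isOpen_iff_mem_nhds]
      rintro ⟨g, p⟩ hgp
      have hgp' : g⁻¹ • O ∈ p.1 := hgp
      obtain ⟨O', hO', h1, -⟩ := p.2.round _ hgp'
      have h2 := hR.inv _ _ g h1
      rw [smul_inv_smul] at h2
      obtain ⟨U, hU, hUO⟩ := hR.small _ _ h2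
      have h3 : (fun h : G => h * g⁻¹) ⁻¹' U ∈ 𝓝 g := by
        have h4 : Tendsto (fun h : G => h * g⁻¹) (𝓝 g) (𝓝 (g * g⁻¹)) :=
          (continuous_mul_const g⁻¹).tendsto _
        rw [mul_inv_cancel] at h4
        exact h4 hU
      have h5 : bs R O' ∈ 𝓝 p := (isOpen_bs (p.2.opn _ hO')).mem_nhds hO'
      refine mem_of_superset (prod_mem_nhds h3 h5) ?_
      rintro ⟨h, q⟩ ⟨hh, hq⟩
      have hh' := hUO _ hh
      rw [← mul_smul, inv_mul_cancel_right] at hh'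
      have h6 := smul_set_mono (a := h⁻¹) hh'
      rw [inv_smul_smul] at h6
      exact q.2.up O' hq _ (IsOpen.smul hO h⁻¹) h6
    exact this
  have hind : IsInducing (embP hR) := by
    refine isInducing_iff_nhds.2 fun a => le_antisymm ?_ ?_
    · have hc : Continuous (embP hR) := by
        refine continuous_generateFrom_iff.2 ?_
        rintro _ ⟨O, hO, rfl⟩
        have : embP hR ⁻¹' bs R O = O := by
          ext x
          exact ⟨fun h => h.2, fun h => ⟨hO, h⟩⟩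
        rw [this]
        exact hO
      exact (hc.tendsto a).le_comap
    · intro V hV
      obtain ⟨W, hWV, hWo, haW⟩ := mem_nhds_iff.1 hV
      refine ⟨bs R W, (isOpen_bs hWo).mem_nhds ⟨hWo, haW⟩, fun x hx => hWV hx.2⟩
  refine ⟨Pnt R, inferInstance, inferInstance, embP hR, polish_pnt hR, hcont,
    ⟨hind, ?_⟩, ?_, ?_⟩
  · intro a b hab
    by_contra hne
    obtain ⟨V, W, hV, hW, haV, hbW, hd⟩ := t2_separation hne
    have h1 : V ∈ (embP hR a).1 := ⟨hV, haV⟩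
    rw [hab] at h1
    exact Set.disjoint_left.1 hd h1.2 hbW
  · intro p
    rw [mem_closure_iff]
    intro N hN hpN
    obtain ⟨O, hO, hON⟩ := exists_bs hN hpN
    have hne : O.Nonempty := by
      rw [nonempty_iff_ne_empty]
      intro h
      exact p.2.ne (h ▸ hO)
    obtain ⟨x, hx⟩ := hne
    exact ⟨embP hR x, hON ⟨p.2.opn _ hO, hx⟩, x, rfl⟩
  · intro g x
    refine Subtype.ext (Set.ext fun O => ?_)
    rw [hmem]
    constructor
    · rintro ⟨hO, hx⟩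
      exact ⟨IsOpen.smul hO g⁻¹, Set.mem_inv_smul_set_iff.2 hx⟩
    · rintro ⟨hO, hx⟩
      refine ⟨?_, Set.mem_inv_smul_set_iff.1 hx⟩
      have := IsOpen.smul hO g
      rwa [smul_inv_smul] at this

end

end Pool.Agent.W_908db9_h43
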